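import Pool.Agent.Q206.FS.Lim

/-!
The oracle which contains the directions for the departures.
-/

set_option autoImplicit false

namespace Pool.Agent.Q206.FS

open Nat.Partrec (Code)
open Encodable
open Pool.Agent.H639.LU
open Pool.Agent.Helper446.Defs

/-- digits with flags -/
def dbl (y : Str) : Str := y.flatMap fun b => [true, b]

theorem dbl_cons (b : Bool) (y : Str) : dbl (b :: y) = true :: b :: dbl y := rfl

/-- `y` is a shortest direction from `x` to the event `n ∈ W_p` -/
def Dir (p n : ℕ) (x y : Str) : Prop :=
  ev p n (x ++ y) = true ∧ ∀ i < y.length, ev p n (x ++ y.take i) = false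

/-- the string with number `c` -/
def sd (c : ℕ) : Str := (decode (α := Str) c).getD []

theorem sd_encode (y : Str) : sd (encode y) = y := by
  unfold sd
  rw [encodek]
  rfl

theorem sd_comp : Computable sd :=
  (Primrec.option_getD.comp Primrec.decode (Primrec.const [])).to_comp

/-- the directions -/
noncomputable def rho (p n : ℕ) (x : Str) : Str := by
  classical exact if h : ∃ c : ℕ, Dir p n x (sd c) then sd (Nat.find h) else []

theorem exists_dir {p n : ℕ} {x : Str} {y : Str} (h : ev p n (x ++ y) = true) :
    ∃ c : ℕ, Dir p n x (sd c) := by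
  classical
  have h1 : ∃ i, i ≤ y.length ∧ ev p n (x ++ y.take i) = true :=
    ⟨y.length, le_refl _, by rw [List.take_length]; exact h⟩
  have h2 := Nat.find_spec h1
  refine ⟨encode (y.take (Nat.find h1)), ?_⟩
  rw [sd_encode]
  refine ⟨h2.2, fun i hi => ?_⟩
  rw [List.length_take, lt_min_iff] at hi
  rw [List.take_take, min_eq_left hi.1.le]
  have h3 := Nat.find_min h1 hi.1
  rw [not_and, Bool.not_eq_true] at h3
  exact h3 (hi.1.le.trans h2.1)

theorem rho_dir {p n : ℕ} {x : Str} (h : rho p n x ≠ []) : Dir p n x (rho p n x) := by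
  classical
  unfold rho at h ⊢
  split_ifs at h ⊢ with h1
  · exact Nat.find_spec h1
  · exact absurd rfl h

theorem rho_nil {p n : ℕ} {x y : Str} (h : rho p n x = []) (h1 : ev p n (x ++ y) = true) :
    ev p n x = true := by
  classical
  unfold rho at h
  rw [dif_pos (exists_dir h1)] at h
  have h2 := Nat.find_spec (exists_dir h1)
  rw [h] at h2
  have h3 := h2.1
  rwa [List.append_nil] at h3

/-- the initial segments of the oracle -/
noncomputable def sg (p : ℕ) (z : ℕ → Bool) (j : ℕ) : Str :=
  Nat.rec [] (fun j x => x ++ (dbl (rho p j.unpair.1 x) ++ [false, z j])) j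

variable {p : ℕ} {z : ℕ → Bool}

theorem sg_succ (p : ℕ) (z : ℕ → Bool) (j : ℕ) :
    sg p z (j + 1) = sg p z j ++ (dbl (rho p j.unpair.1 (sg p z j)) ++ [false, z j]) := rfl

theorem sg_mono {i j : ℕ} (h : i ≤ j) : sg p z i <+: sg p z j := by
  induction h with
  | refl => exact List.prefix_refl _
  | step _ ih => exact ih.trans (by rw [sg_succ]; exact List.prefix_append _ _)

theorem sg_len_succ (j : ℕ) : (sg p z j).length + 2 ≤ (sg p z (j + 1)).length := by
  rw [sg_succ]
  simp only [List.length_append, List.length_cons, List.length_nil]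
  omega

theorem le_sg_len (j : ℕ) : j ≤ (sg p z j).length := by
  induction j with
  | zero => exact Nat.zero_le _
  | succ j ih =>
    have := sg_len_succ (p := p) (z := z) j
    omega

/-- the oracle -/
noncomputable def ZZ (p : ℕ) (z : ℕ → Bool) (i : ℕ) : Bool := (sg p z (i + 1)).getD i false

theorem Pr_sg (j : ℕ) : Pr (sg p z j) (ZZ p z) := by
  rw [Pr_iff]
  intro i hi
  unfold ZZ
  rcases le_total j (i + 1) with h | h
  · exact pre_getD (sg_mono h) hi
  · exact (pre_getD (sg_mono h) (by have := le_sg_len (p := p) (z := z) (i + 1); omega)).symm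

theorem seg_sg (j : ℕ) : seg (ZZ p z) (sg p z j).length = sg p z j := Pr_sg j

/-! The parser. -/

theorem P_append (x y : Str) : P (x ++ y) = y.foldl pstep (P x) := List.foldl_append

theorem fold_dbl (c : ℕ) : ∀ (y : Str) (f : Bool), (y ≠ [] → True) →
    ((dbl y).foldl pstep (0, c, f) = (0, c, f) ∨ (dbl y).foldl pstep (0, c, f) = (0, c, false))
  | [], _, _ => Or.inl rfl
  | b :: y, f, _ => by
    rw [dbl_cons, List.foldl_cons, List.foldl_cons]
    change (dbl y).foldl pstep (0, c, false) = _ ∨ (dbl y).foldl pstep (0, c, false) = _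
    rcases fold_dbl c y false (fun _ => trivial) with h | h
    · exact Or.inr h
    · exact Or.inr h

theorem fold_block (c : ℕ) (f : Bool) (y : Str) (b : Bool) :
    (dbl y ++ [false, b]).foldl pstep (0, c, f) = (0, c + 1, true) := by
  rw [List.foldl_append]
  rcases fold_dbl c y f (fun _ => trivial) with h | h <;> rw [h] <;> rfl

theorem P_sg (j : ℕ) : P (sg p z j) = (0, j, true) := by
  induction j with
  | zero => rfl
  | succ j ih => rw [sg_succ, P_append, ih, fold_block]

/-- inside a block the parser is not at the start of a block -/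
theorem inside (c : ℕ) (b : Bool) : ∀ (y : Str) (f : Bool) (i : ℕ), 0 < i →
    i < (dbl y ++ [false, b]).length →
    (((dbl y ++ [false, b]).take i).foldl pstep (0, c, f)).2.2 = false
  | [], f, i, h0, h1 => by
    have h1' : i < 2 := h1
    have : i = 1 := by omega
    subst this
    rfl
  | a :: y, f, i, h0, h1 => by
    rw [dbl_cons] at h1 ⊢
    match i, h0, h1 with
    | 1, _, _ => rfl
    | 2, _, _ => rfl
    | (i + 3), _, h1 =>
      have h2 : i + 1 < (dbl y ++ [false, b]).length := by
        simp only [List.cons_append, List.length_cons] at h1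
        omega
      change (((dbl y ++ [false, b]).take (i + 1)).foldl pstep (0, c, false)).2.2 = false
      exact inside c b y false (i + 1) (Nat.succ_pos i) h2

/-- the block of a position -/
theorem exists_block (t : ℕ) :
    ∃ j, (sg p z j).length ≤ t ∧ t < (sg p z (j + 1)).length := by
  classical
  have h : ∃ j, t < (sg p z (j + 1)).length :=
    ⟨t, by have := le_sg_len (p := p) (z := z) (t + 1); omega⟩
  refine ⟨Nat.find h, ?_, Nat.find_spec h⟩
  rcases hj : Nat.find h with _ | j
  · exact Nat.zero_le _
  · have := Nat.find_min h (m := j) (by omega)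
    omega

/-- The starts of blocks are the ends of the initial segments. -/
theorem start_iff {t : ℕ} (h : (P (seg (ZZ p z) t)).2.2 = true) :
    ∃ j, t = (sg p z j).length ∧ seg (ZZ p z) t = sg p z j := by
  obtain ⟨j, h1, h2⟩ := exists_block (p := p) (z := z) t
  rcases h1.eq_or_lt with h3 | h3
  · exact ⟨j, h3.symm, by rw [← h3, seg_sg]⟩
  · exfalso
    have h4 : seg (ZZ p z) t = sg p z j ++
        ((dbl (rho p j.unpair.1 (sg p z j)) ++ [false, z j]).take (t - (sg p z j).length)) := by
      rw [← seg_take (ZZ p z) h2.le, seg_sg, sg_succ, List.take_append,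
        List.take_of_length_le h1]
    rw [h4, P_append, P_sg, inside] at h
    · exact absurd h (by decide)
    · omega
    · rw [sg_succ, List.length_append] at h2
      omega

end Pool.Agent.Q206.FS
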