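import Pool.Agent.Q206.FS.Cons

/-!
Departures from the oracle.
-/

set_option autoImplicit false

namespace Pool.Agent.Q206.FS

open Nat.Partrec (Code)
open Encodable
open Pool.Agent.H639.LU
open Pool.Agent.Helper446.Defs

/-- the label -/
def lb (a m p n : ℕ) : ℕ := Nat.pair (Nat.pair a m) (Nat.pair p n)

theorem H_lb (a m p n : ℕ) (x : Str) : H (lb a m p n) x = ev a m x := by
  simp [H, lb]

theorem E_lb (a m p n : ℕ) (x : Str) : E (lb a m p n) x = ev p n x := by
  simp [E, lb]

theorem D_lb (a m p n : ℕ) (x : Str) : D (lb a m p n) x = true ↔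
    ev a m x = true ∧ (P x).2.2 = true ∧ (P x).2.1.unpair.1 = n := by
  unfold D
  rw [H_lb]
  simp [lb]

theorem frun_app (k : ℕ) (v : Str) : ∀ (u base : Str),
    (∀ i < u.length, D k (base ++ u.take i) = false) →
    frun k base (u ++ v) = u ++ frun k (base ++ u) v ∧
      run k base (u ++ v) = u ++ run k (base ++ u) v
  | [], base, _ => by simp
  | b :: u, base, h => by
    have h0 : D k base = false := by
      have := h 0 (by simp)
      simpa using this
    have h1 : ∀ i < u.length, D k ((base ++ [b]) ++ u.take i) = false := by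
      intro i hi
      have := h (i + 1) (by simp; omega)
      rw [List.take_succ_cons] at this
      rw [List.append_assoc]
      exact this
    obtain ⟨h2, h3⟩ := frun_app k v u (base ++ [b]) h1
    simp only [List.cons_append, frun, run, h0, h2, h3]
    simp

theorem frun_D {k : ℕ} {base : Str} (h : D k base = true) (v : Str) :
    frun k base v = und v ∧ run k base v = go k base v := by
  cases v with
  | nil => exact ⟨rfl, rfl⟩
  | cons b v => simp only [frun, run, h, if_true, and_self]

theorem und_dbl (r : Str) : ∀ y : Str, und (dbl y ++ false :: r) = y ++ r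
  | [] => rfl
  | b :: y => by
    rw [dbl_cons]
    change b :: und (dbl y ++ false :: r) = _
    rw [und_dbl r y]
    rfl

theorem go_dbl (k : ℕ) (b : Bool) (r : Str) : ∀ (y base : Str),
    (∀ i < y.length, E k (base ++ y.take i) = false) → E k (base ++ y) = true →
    go k base (y ++ b :: r) = dbl y ++ false :: b :: r
  | [], base, _, h => by
    rw [List.append_nil] at h
    simp [go, h, dbl]
  | a :: y, base, h, h' => by
    have h0 : E k base = false := by
      have := h 0 (by simp)
      simpa using this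
    have h1 : ∀ i < y.length, E k ((base ++ [a]) ++ y.take i) = false := by
      intro i hi
      have := h (i + 1) (by simp; omega)
      rw [List.take_succ_cons] at this
      rw [List.append_assoc]
      exact this
    have h2 : E k ((base ++ [a]) ++ y) = true := by
      rw [List.append_assoc]
      exact h'
    rw [List.cons_append]
    simp only [go, h0]
    rw [go_dbl k b r y (base ++ [a]) h1 h2]
    rfl

theorem GG_FF_of {k : ℕ} {Z : ℕ → Bool} (T₀ : ℕ)
    (h : ∀ T ≥ T₀, run k [] (frun k [] (seg Z T)) = seg Z T) : GG k (FF k Z) = Z := by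
  refine eq_of_Pr fun i => ⟨seg Z (max T₀ (i + 1)), by rw [seg_length]; omega, ?_, Pr_seg Z _⟩
  have h1 := (run_mo k).Pr ((frun_mo k).Pr (Pr_seg Z (max T₀ (i + 1))))
  rw [h _ (le_max_left _ _)] at h1
  exact h1

/-- without the trigger nothing happens -/
theorem no_trigger {k : ℕ} {Z : ℕ → Bool} (h : ∀ t, D k (seg Z t) = false) :
    FF k Z = Z ∧ GG k (FF k Z) = Z := by
  have h1 : ∀ T, ∀ i < (seg Z T).length, D k ([] ++ (seg Z T).take i) = false := by
    intro T i hi
    rw [seg_length] at hi
    rw [List.nil_append, seg_take Z hi.le]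
    exact h i
  have h2 : ∀ T, frun k [] (seg Z T) = seg Z T ∧ run k [] (seg Z T) = seg Z T := by
    intro T
    obtain ⟨h3, h4⟩ := frun_app k [] (seg Z T) [] (h1 T)
    rw [List.append_nil] at h3 h4
    exact ⟨h3.trans (by simp [frun]), h4.trans (by simp [run])⟩
  refine ⟨?_, GG_FF_of 0 fun T _ => by rw [(h2 T).1, (h2 T).2]⟩
  refine eq_of_Pr fun i => ⟨seg Z (i + 1), by rw [seg_length]; omega, ?_, Pr_seg Z _⟩
  have h5 := (frun_mo k).Pr (Pr_seg Z (i + 1))
  rw [(h2 _).1] at h5
  exact h5

section

variable {a m p n : ℕ} {z : ℕ → Bool}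

/-- with the trigger the event happens -/
theorem trigger (hA : ∀ j : ℕ, j.unpair.1 = n → rho p n (sg p z j) ≠ [])
    (ht : ∃ t, ev a m (seg (ZZ p z) t) = true) :
    (∃ t, ev p n (seg (FF (lb a m p n) (ZZ p z)) t) = true) ∧
      GG (lb a m p n) (FF (lb a m p n) (ZZ p z)) = ZZ p z := by
  classical
  set k := lb a m p n with hk
  set Z := ZZ p z with hZ
  have hex : ∃ t, D k (seg Z t) = true := by
    obtain ⟨t, ht⟩ := ht
    refine ⟨(sg p z (Nat.pair n t)).length, ?_⟩
    rw [hZ, seg_sg, D_lb, P_sg]
    refine ⟨ev_mono (x := seg (ZZ p z) t) ?_ ht, rfl, by simp⟩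
    rw [← seg_sg (p := p) (z := z) (Nat.pair n t)]
    exact seg_prefix _ ((Nat.right_le_pair n t).trans (le_sg_len _))
  have hspec := Nat.find_spec hex
  have hmin : ∀ t < Nat.find hex, D k (seg Z t) = false := fun t ht' => by
    have := Nat.find_min hex ht'
    rwa [Bool.not_eq_true] at this
  obtain ⟨j, hj1, hj2⟩ := start_iff (p := p) (z := z) ((D_lb a m p n _).1 hspec).2.1
  have hDj : D k (sg p z j) = true := by
    rw [← hj2]
    exact hspec
  have hn : j.unpair.1 = n := by
    have := ((D_lb a m p n _).1 hDj).2.2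
    rwa [P_sg] at this
  have hdir := rho_dir (hA j hn)
  set ρ := rho p n (sg p z j) with hρ
  have hpre : ∀ i < (sg p z j).length, D k ([] ++ (sg p z j).take i) = false := by
    intro i hi
    rw [List.nil_append, ← seg_sg, seg_take _ hi.le]
    exact hmin i (by omega)
  have hseg : ∀ T ≥ (sg p z (j + 1)).length, ∃ r : Str,
      seg Z T = sg p z j ++ (dbl ρ ++ false :: z j :: r) := by
    intro T hT
    obtain ⟨r, hr⟩ := seg_prefix Z hT
    refine ⟨r, ?_⟩
    rw [← hr, hZ, seg_sg, sg_succ, hn, ← hρ]
    simp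
  have hf : ∀ r : Str, frun k [] (sg p z j ++ (dbl ρ ++ false :: z j :: r)) =
      sg p z j ++ (ρ ++ z j :: r) := by
    intro r
    rw [(frun_app k _ _ [] hpre).1, List.nil_append, (frun_D hDj _).1, und_dbl]
  have hg : ∀ r : Str, run k [] (sg p z j ++ (ρ ++ z j :: r)) =
      sg p z j ++ (dbl ρ ++ false :: z j :: r) := by
    intro r
    rw [(frun_app k _ _ [] hpre).2, List.nil_append, (frun_D hDj _).2, go_dbl]
    · intro i hi
      rw [hk, E_lb]
      exact hdir.2 i hi
    · rw [hk, E_lb]
      exact hdir.1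
  constructor
  · obtain ⟨r, hr⟩ := hseg _ (le_refl _)
    have h1 := (frun_mo k).Pr (Pr_seg Z (sg p z (j + 1)).length)
    rw [hr, hf] at h1
    refine ⟨(sg p z j ++ (ρ ++ z j :: r)).length, ?_⟩
    have h2 : seg (FF k Z) (sg p z j ++ (ρ ++ z j :: r)).length = sg p z j ++ (ρ ++ z j :: r) := h1
    rw [h2]
    refine ev_mono (x := sg p z j ++ ρ) ?_ hdir.1
    rw [← List.append_assoc]
    exact List.prefix_append _ _
  · refine GG_FF_of (sg p z (j + 1)).length fun T hT => ?_
    obtain ⟨r, hr⟩ := hseg T hT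
    rw [hr, hf, hg]

/-- The event happens after the departure if and only if there is the trigger. -/
theorem depart (hA : ∀ j : ℕ, j.unpair.1 = n → rho p n (sg p z j) ≠ [])
    (hn : ∀ t, ev p n (seg (ZZ p z) t) = false) :
    GG (lb a m p n) (FF (lb a m p n) (ZZ p z)) = ZZ p z ∧
    ((∃ t, ev p n (seg (FF (lb a m p n) (ZZ p z)) t) = true) ↔
      ∃ t, ev a m (seg (ZZ p z) t) = true) := by
  by_cases ht : ∃ t, ev a m (seg (ZZ p z) t) = true
  · obtain ⟨h1, h2⟩ := trigger hA ht
    exact ⟨h2, iff_of_true h1 ht⟩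
  · have h0 : ∀ t, D (lb a m p n) (seg (ZZ p z) t) = false := by
      intro t
      rw [← Bool.not_eq_true]
      intro h
      exact ht ⟨t, ((D_lb a m p n _).1 h).1⟩
    obtain ⟨h1, h2⟩ := no_trigger h0
    refine ⟨h2, ?_⟩
    rw [h1]
    refine iff_of_false ?_ ht
    rintro ⟨t, h⟩
    rw [hn t] at h
    exact absurd h (by decide)

end

end Pool.Agent.Q206.FS
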