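import Pool.Agent.Q206.FS.Hat
import Pool.Agent.Q206.FS.Dep

/-!
The configuration of an oracle is computed by one program.
-/

set_option autoImplicit false

namespace Pool.Agent.Q206.FS

open Nat.Partrec (Code)
open Encodable
open Pool.Agent.H639.LU
open Pool.Agent.Helper446 Pool.Agent.Helper446.Defs Pool.Agent.Helper446.Oracle

theorem lz_prim : Primrec lz :=
  Primrec.list_findIdx Primrec.id (Primrec.snd)

theorem lab_prim {T : ℕ → Str → Str} (hT : Primrec fun a : ℕ × Str => T a.1 a.2) :
    Primrec (lab T) := by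
  have h1 : Primrec fun x : Str => lz x + 1 := Primrec.succ.comp lz_prim
  exact Primrec.list_append.comp (Primrec.list_take.comp h1 Primrec.id)
    (hT.comp (lz_prim.pair (drop_prim.comp h1 Primrec.id)))

theorem S_prim : Primrec fun a : ℕ × Str => S a.1 a.2 := by
  unfold S
  refine Primrec.ite (Primrec.eq.comp Primrec.fst (Primrec.const 0)) ?_
    (Primrec.ite (Primrec.eq.comp Primrec.fst (Primrec.const 1)) ?_
      (Primrec.ite (Primrec.eq.comp Primrec.fst (Primrec.const 2)) ?_ ?_))
  · exact Primrec.list_cons.comp (Primrec.const false) Primrec.snd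
  · exact Primrec.list_tail.comp Primrec.snd
  · exact (lab_prim run_prim).comp Primrec.snd
  · exact (lab_prim frun_prim).comp Primrec.snd

/-- the letters of the word are applied to the string -/
def Sw (w : List ℕ) (x : Str) : Str := w.foldl (fun x l => S l x) x

theorem Sw_prim : Primrec fun a : List ℕ × Str => Sw a.1 a.2 := by
  refine Primrec.list_foldl (f := fun a : List ℕ × Str => a.1) (g := fun a => a.2)
    (h := fun _ p => S p.2 p.1) Primrec.fst Primrec.snd ?_
  exact S_prim.comp ((Primrec.snd.comp Primrec.snd).pair (Primrec.fst.comp Primrec.snd))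

theorem Sw_Pr : ∀ (w : List ℕ) {x : Str} {X : ℕ → Bool}, Pr x X → Pr (Sw w x) (Xw w X)
  | [], _, _, h => h
  | l :: w, _, _, h => Sw_Pr w ((S_mo l).Pr h)

theorem Sw_len : ∀ (w : List ℕ) (x : Str), x.length + 2 ≤ 2 ^ w.length * ((Sw w x).length + 2)
  | [], x => by simp [Sw]
  | l :: w, x => by
    have h1 := Sw_len w (S l x)
    have h2 := (S_mo l).len x
    have h3 : Sw (l :: w) x = Sw w (S l x) := rfl
    rw [h3, List.length_cons, pow_succ]
    nlinarith

/-- one digit of the configuration, as far as the string decides it -/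
def hb (x : Str) (c : ℕ) : Option Bool :=
  if vd (Denumerable.ofNat (List ℕ × ℕ) c).1 = true then
    (Sw (Denumerable.ofNat (List ℕ × ℕ) c).1 x)[(Denumerable.ofNat (List ℕ × ℕ) c).2]?
  else some false

theorem hb_sound {x : Str} {X : ℕ → Bool} (h : Pr x X) {c : ℕ} {b : Bool} (hb' : hb x c = some b) :
    b = hat X c := by
  unfold hb at hb'
  unfold hat
  split_ifs at hb' ⊢ with h1
  · have h2 := Sw_Pr (Denumerable.ofNat (List ℕ × ℕ) c).1 h
    obtain ⟨h3, h4⟩ := List.getElem?_eq_some_iff.1 hb'
    have h5 := h2.get h3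
    rw [List.getD_eq_getElem?_getD, List.getElem?_eq_getElem h3] at h5
    rw [← h5, ← h4]
    rfl
  · exact (Option.some.inj hb').symm

theorem hb_complete (X : ℕ → Bool) (c : ℕ) : ∃ t₀, ∀ t ≥ t₀, hb (seg X t) c = some (hat X c) := by
  set w := (Denumerable.ofNat (List ℕ × ℕ) c).1 with hw
  set i := (Denumerable.ofNat (List ℕ × ℕ) c).2 with hi
  refine ⟨2 ^ w.length * (i + 3), fun t ht => ?_⟩
  have h : (hb (seg X t) c).isSome = true := by
    unfold hb
    split_ifs with h1
    · rw [← hw, ← hi]
      have h2 := Sw_len w (seg X t)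
      rw [seg_length] at h2
      have h3 : i < (Sw w (seg X t)).length := by
        by_contra hcon
        have h4 : (Sw w (seg X t)).length + 2 ≤ i + 2 := by omega
        have h5 := Nat.mul_le_mul_left (2 ^ w.length) h4
        have h6 : 2 ^ w.length * (i + 3) = 2 ^ w.length * (i + 2) + 2 ^ w.length := by ring
        have h7 : 0 < 2 ^ w.length := by positivity
        omega
      rw [List.getElem?_eq_getElem h3]
      rfl
    · rfl
  obtain ⟨b, hb1⟩ := Option.isSome_iff_exists.1 h
  rw [hb1, hb_sound (Pr_seg X t) hb1]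

theorem vd_prim : Primrec vd := by
  have h : Primrec fun w : List ℕ => (List.recOn w true
      (fun l w' IH => decide (l < 4) && (!decide (w'.head? = some (iv l)) && IH)) : Bool) := by
    refine Primrec.list_rec (f := fun w : List ℕ => w) (g := fun _ => true)
      (h := fun _ p => decide (p.1 < 4) && (!decide (p.2.1.head? = some (iv p.1)) && p.2.2))
      Primrec.id (Primrec.const _) ?_
    have h1 : Primrec fun q : List ℕ × (ℕ × List ℕ × Bool) => q.2.1 :=
      Primrec.fst.comp Primrec.snd
    have h2 : Primrec fun q : List ℕ × (ℕ × List ℕ × Bool) => q.2.2.1 :=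
      Primrec.fst.comp (Primrec.snd.comp Primrec.snd)
    have h3 : Primrec fun q : List ℕ × (ℕ × List ℕ × Bool) => q.2.2.2 :=
      Primrec.snd.comp (Primrec.snd.comp Primrec.snd)
    have hiv : Primrec iv := by
      unfold iv
      exact Primrec.ite (Primrec.eq.comp Primrec.id (Primrec.const 0)) (Primrec.const 1)
        (Primrec.ite (Primrec.eq.comp Primrec.id (Primrec.const 1)) (Primrec.const 0)
          (Primrec.ite (Primrec.eq.comp Primrec.id (Primrec.const 2)) (Primrec.const 3)
            (Primrec.const 2)))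
    refine Primrec.and.comp ?_ (Primrec.and.comp (Primrec.not.comp ?_) h3)
    · exact (Primrec.nat_lt.decide).comp h1 (Primrec.const 4)
    · exact (Primrec.eq.decide).comp (Primrec.list_head?.comp h2)
        (Primrec.option_some.comp (hiv.comp h1))
  refine h.of_eq fun w => ?_
  induction w with
  | nil => rfl
  | cons l w ih =>
    change (decide (l < 4) && (!decide (w.head? = some (iv l)) && (List.recOn w true
      (fun l w' IH => decide (l < 4) && (!decide (w'.head? = some (iv l)) && IH)) : Bool))) = _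
    rw [ih]
    rfl

theorem iv_prim : Primrec iv := by
  unfold iv
  exact Primrec.ite (Primrec.eq.comp Primrec.id (Primrec.const 0)) (Primrec.const 1)
    (Primrec.ite (Primrec.eq.comp Primrec.id (Primrec.const 1)) (Primrec.const 0)
      (Primrec.ite (Primrec.eq.comp Primrec.id (Primrec.const 2)) (Primrec.const 3)
        (Primrec.const 2)))

theorem hb_prim : Primrec fun a : Str × ℕ => hb a.1 a.2 := by
  have h1 : Primrec fun a : Str × ℕ => (Denumerable.ofNat (List ℕ × ℕ) a.2).1 :=
    Primrec.fst.comp ((Primrec.ofNat _).comp Primrec.snd)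
  have h2 : Primrec fun a : Str × ℕ => (Denumerable.ofNat (List ℕ × ℕ) a.2).2 :=
    Primrec.snd.comp ((Primrec.ofNat _).comp Primrec.snd)
  unfold hb
  refine Primrec.ite (Primrec.eq.comp (vd_prim.comp h1) (Primrec.const true)) ?_
    (Primrec.const _)
  exact Primrec.list_getElem?.comp (Sw_prim.comp (h1.pair Primrec.fst)) h2

theorem tau_prim (l : ℕ) : Primrec (tau l) := by
  have h1 : Primrec fun a : ℕ => (Denumerable.ofNat (List ℕ × ℕ) a).1 :=
    Primrec.fst.comp (Primrec.ofNat _)
  have h2 : Primrec fun a : ℕ => (Denumerable.ofNat (List ℕ × ℕ) a).2 :=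
    Primrec.snd.comp (Primrec.ofNat _)
  unfold tau mul
  refine Primrec.ite (Primrec.eq.comp (vd_prim.comp h1) (Primrec.const true)) ?_ Primrec.id
  refine Primrec.encode.comp (Primrec.pair ?_ h2)
  exact Primrec.ite (Primrec.eq.comp (Primrec.list_head?.comp h1) (Primrec.const _))
    (Primrec.list_tail.comp h1) (Primrec.list_cons.comp (Primrec.const l) h1)

theorem wd_comp : Computable wd := by
  have hr : ∀ a : ℕ, Primrec fun k : ℕ => List.replicate k a := by
    intro a
    have : Primrec fun k : ℕ => (List.range k).map fun _ => a :=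
      Primrec.list_map Primrec.list_range (Primrec.const a).to₂
    refine this.of_eq fun k => ?_
    rw [List.map_const', List.length_range]
  exact (Primrec.list_append.comp (hr 0) (Primrec.list_cons.comp (Primrec.const 3) (hr 1))).to_comp

theorem hat_red : ∃ a : Code, ∀ X : ℕ → Bool, Red a X (hat (zs 0 X)) := by
  obtain ⟨a, ha⟩ := K1 (fun q : ℕ × Str => (hb (true :: q.2) q.1).map Bool.toNat) (by
    refine (Primrec.option_map (f := fun q : ℕ × Str => hb (true :: q.2) q.1)
      (g := fun _ b => Bool.toNat b) ?_ ?_).to_comp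
    · exact hb_prim.comp ((Primrec.list_cons.comp (Primrec.const true) Primrec.snd).pair
        Primrec.fst)
    · exact (Primrec.dom_bool Bool.toNat).comp Primrec.snd)
  refine ⟨a, fun X n v => ?_⟩
  have h0 : ∀ s, seg (zs 0 X) (s + 1) = true :: seg X s := fun s => seg_cns true X s
  constructor
  · rintro ⟨s, hs⟩
    rw [ha, Part.mem_ofOption, Option.mem_def, Option.map_eq_some_iff] at hs
    obtain ⟨b, hb1, hb2⟩ := hs
    rw [← h0] at hb1
    rw [← hb2, hb_sound (Pr_seg _ _) hb1]
  · rintro rfl
    obtain ⟨t, ht⟩ := hb_complete (zs 0 X) n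
    refine ⟨t, ?_⟩
    rw [ha, Part.mem_ofOption, Option.mem_def, Option.map_eq_some_iff, ← h0]
    exact ⟨_, ht _ (Nat.le_succ t), rfl⟩

theorem hat_le (X : ℕ → Bool) : le (hat (zs 0 X)) X := by
  obtain ⟨a, ha⟩ := hat_red
  exact (K3 K2 _ _).2 ⟨a, ha X⟩

theorem le_hat (X : ℕ → Bool) : le X (hat (zs 0 X)) := by
  refine K4.2.2.2 _ _ (fun n => encode (([] : List ℕ), n + 1)) ?_ fun n => ?_
  · exact Computable.encode.comp ((Computable.const []).pair Computable.succ)
  · unfold hat
    rw [Denumerable.ofNat_encode]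
    rfl

theorem code_of {f : ℕ × Str →. ℕ} (hf : Partrec f) :
    ∃ c : Code, ∀ p : ℕ × Str, c.eval (encode p) = f p := by
  have hq : Partrec (fun p : ℕ => (Part.ofOption (decode (α := ℕ × Str) p)).bind f) :=
    Partrec.bind (Computable.ofOption Computable.decode) (hf.comp Computable.snd).to₂
  obtain ⟨c, hc⟩ := Nat.Partrec.Code.exists_code.1 (Partrec.nat_iff.1 hq)
  refine ⟨c, fun p => ?_⟩
  rw [hc]
  change (Part.ofOption (decode (α := ℕ × Str) (encode p))).bind f = _
  rw [encodek]
  exact Part.bind_some _ _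

/-- from an r.e. predicate to a program -/
theorem code_of_re {R : ℕ → Str → Prop} (hR : REPred fun q : ℕ × Str => R q.1 q.2) :
    ∃ r : Code, ∀ n x, (r.eval (encode (n, x))).Dom ↔ R n x := by
  have h1 : Partrec fun q : ℕ × Str => ((Part.assert (R q.1 q.2) fun _ => Part.some ()).map
      fun _ => (0 : ℕ)) := Partrec.map hR (Computable.const 0).to₂
  obtain ⟨c, hc⟩ := code_of h1
  refine ⟨c, fun n x => ?_⟩
  rw [hc]
  simp [Part.assert]

/-- Operators which are c.e. in the configuration are c.e. in the oracle. -/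
theorem pull {R : ℕ → Str → Prop} (hR : REPred fun q : ℕ × Str => R q.1 q.2) :
    ∃ r : ℕ, ∀ (X : ℕ → Bool) (n : ℕ), (∃ t, ev r n (seg X t) = true) ↔
      ∃ s, R n (seg (hat (zs 0 X)) s) := by
  have h0 : ∀ (X : ℕ → Bool) (s : ℕ), seg (zs 0 X) (s + 1) = true :: seg X s :=
    fun X s => seg_cns true X s
  obtain ⟨r, hr⟩ := code_of_re (R := fun n x => ∃ y : Str, R n y ∧
      ∀ i < y.length, hb (true :: x) i = some (y.getD i false)) (by
    refine RE.ex (p := fun (q : ℕ × Str) (y : Str) => R q.1 y ∧
      ∀ i < y.length, hb (true :: q.2) i = some (y.getD i false)) ?_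
    refine RE.and ?_ ?_
    · exact RE.comp hR (f := fun q : (ℕ × Str) × Str => (q.1.1, q.2)) (by fun_prop)
    · refine RE.all_lt (p := fun (q : (ℕ × Str) × Str) (i : ℕ) =>
        hb (true :: q.1.2) i = some (q.2.getD i false)) ?_
        (f := fun q => q.2.length) (Primrec.list_length.to_comp.comp Computable.snd)
      refine RE.eq ?_ ?_
      · exact (hb_prim.comp ((Primrec.list_cons.comp (Primrec.const true)
          (Primrec.snd.comp (Primrec.fst.comp Primrec.fst))).pair Primrec.snd)).to_comp
      · exact (Primrec.option_some.comp ((Primrec.list_getD false).comp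
          (Primrec.snd.comp Primrec.fst) Primrec.snd)).to_comp)
  refine ⟨encode r, fun X n => ?_⟩
  rw [← W_iff_ev, Denumerable.ofNat_encode]
  constructor
  · rintro ⟨s, hs⟩
    obtain ⟨y, hy1, hy2⟩ := (hr _ _).1 hs
    have h1 : Pr y (hat (zs 0 X)) := by
      rw [Pr_iff]
      intro i hi
      have h2 := hy2 i hi
      rw [← h0] at h2
      exact hb_sound (Pr_seg _ _) h2
    exact ⟨y.length, by rw [h1]; exact hy1⟩
  · rintro ⟨s, hs⟩
    have h1 : ∃ t₀, ∀ t ≥ t₀, ∀ i < s, hb (seg (zs 0 X) t) i = some (hat (zs 0 X) i) := by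
      choose f hf using hb_complete (zs 0 X)
      refine ⟨(Finset.range s).sup f, fun t ht i hi => hf i t ?_⟩
      exact (Finset.le_sup (f := f) (Finset.mem_range.2 hi)).trans ht
    obtain ⟨t, ht⟩ := h1
    refine ⟨t, (hr _ _).2 ⟨_, hs, fun i hi => ?_⟩⟩
    rw [seg_length] at hi
    rw [← h0, ht _ (Nat.le_succ t) i hi, seg_getD _ _ _ hi]

end Pool.Agent.Q206.FS
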