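import Pool.Agent.Q206.FS.Cons
import Pool.Agent.H639.LU.K7

/-!
The degree of the oracle.
-/

set_option autoImplicit false

namespace Pool.Agent.Q206.FS

open Nat.Partrec (Code)
open Nat.Partrec.Code (evaln)
open Encodable
open Pool.Agent.H639.LU
open Pool.Agent.Helper446 Pool.Agent.Helper446.Defs Pool.Agent.Helper446.Oracle

variable {p : ℕ} {z : ℕ → Bool}

theorem le_iff {X Y : ℕ → Bool} :
    le Y X ↔ REIn (St X) (fun n => Y n = true) ∧ REIn (St X) (fun n => Y n = false) := by
  refine turingReducible_iff.trans (and_congr Iff.rfl ?_)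
  refine ⟨fun h => h.of_eq fun n => ?_, fun h => h.of_eq fun n => ?_⟩ <;> simp [St]

/-- the coded set is computed by the oracle -/
theorem z_le_ZZ (p : ℕ) (z : ℕ → Bool) : le z (ZZ p z) := by
  have key : ∀ (b : Bool) (n : ℕ), z n = b ↔ ∃ s, ∃ y : Str, seg (ZZ p z) s = y ++ [b] ∧
      (P (seg (ZZ p z) s)).2.2 = true ∧ (P (seg (ZZ p z) s)).2.1 = n + 1 := by
    intro b n
    constructor
    · intro h
      refine ⟨(sg p z (n + 1)).length,
        sg p z n ++ (dbl (rho p n.unpair.1 (sg p z n)) ++ [false]), ?_, ?_, ?_⟩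
      · rw [seg_sg, sg_succ, ← h]
        simp
      · rw [seg_sg, P_sg]
      · rw [seg_sg, P_sg]
    · rintro ⟨s, y, h1, h2, h3⟩
      obtain ⟨j, hj1, hj2⟩ := start_iff h2
      rw [hj2, P_sg] at h3
      have hj : j = n + 1 := h3
      subst hj
      rw [hj2, sg_succ] at h1
      have h4 : sg p z n ++ (dbl (rho p n.unpair.1 (sg p z n)) ++ [false]) ++ [z n] =
          y ++ [b] := by
        rw [← h1]
        simp
      have h5 := (List.append_inj' h4 rfl).2
      simpa using h5
  have hre : ∀ b : Bool, REIn (St (ZZ p z)) fun n => z n = b := by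
    intro b
    refine (K2 ℕ _ _).2 ⟨fun n x => ∃ y : Str, x = y ++ [b] ∧ (P x).2.2 = true ∧
      (P x).2.1 = n + 1, ?_, fun n => key b n⟩
    refine RE.ex (p := fun (q : ℕ × Str) (y : Str) => q.2 = y ++ [b] ∧ (P q.2).2.2 = true ∧
      (P q.2).2.1 = q.1 + 1) ?_
    have hP : Computable fun q : (ℕ × Str) × Str => P q.1.2 :=
      P_prim.to_comp.comp (Computable.snd.comp Computable.fst)
    refine RE.and (RE.eq ?_ ?_) (RE.and (RE.eq ?_ ?_) (RE.eq ?_ ?_))
    · exact Computable.snd.comp Computable.fst
    · exact (Primrec.list_append.comp Primrec.snd (Primrec.const [b])).to_comp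
    · exact Computable.snd.comp (Computable.snd.comp hP)
    · exact Computable.const _
    · exact Computable.fst.comp (Computable.snd.comp hP)
    · exact Computable.succ.comp (Computable.fst.comp Computable.fst)
  exact le_iff.2 ⟨hre true, hre false⟩

/-! Case B. -/

theorem ev_comp : Computable fun a : (ℕ × ℕ) × Str => ev a.1.1 a.1.2 a.2 := ev_prim.to_comp

theorem ev_c {α : Type} [Primcodable α] {f g : α → ℕ} {h : α → Str} (hf : Computable f)
    (hg : Computable g) (hh : Computable h) : Computable fun a => ev (f a) (g a) (h a) :=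
  ev_comp.comp ((hf.pair hg).pair hh)

theorem caseB (hB : ∀ n, (∃ t, ev p n (seg (ZZ p z) t) = true) ∨
    ∃ j : ℕ, j.unpair.1 = n ∧ rho p n (sg p z j) = []) :
    REIn (St (ZZ p z)) (fun n => ∃ t, ev p n (seg (ZZ p z) t) = true) ∧
    REIn (St (ZZ p z)) (fun n => ¬ ∃ t, ev p n (seg (ZZ p z) t) = true) := by
  constructor
  · refine (K2 ℕ _ _).2 ⟨fun n x => ev p n x = true, ?_, fun n => Iff.rfl⟩
    refine RE.eq ?_ (Computable.const _)
    exact ev_c (Computable.const p) Computable.fst Computable.snd
  · refine (K2 ℕ _ _).2 ⟨fun n x => ∃ y : Str, x = y ++ [false] ∧ (P y).2.2 = true ∧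
      (P y).2.1.unpair.1 = n ∧ ev p n y = false, ?_, fun n => ?_⟩
    · refine RE.ex (p := fun (q : ℕ × Str) (y : Str) => q.2 = y ++ [false] ∧ (P y).2.2 = true ∧
        (P y).2.1.unpair.1 = q.1 ∧ ev p q.1 y = false) ?_
      have hP : Computable fun q : (ℕ × Str) × Str => P q.2 :=
        P_prim.to_comp.comp Computable.snd
      refine RE.and (RE.eq ?_ ?_) (RE.and (RE.eq ?_ ?_) (RE.and (RE.eq ?_ ?_) (RE.eq ?_ ?_)))
      · exact Computable.snd.comp Computable.fst
      · exact (Primrec.list_append.comp Primrec.snd (Primrec.const [false])).to_comp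
      · exact Computable.snd.comp (Computable.snd.comp hP)
      · exact Computable.const _
      · exact Computable.fst.comp (Computable.unpair.comp
          (Computable.fst.comp (Computable.snd.comp hP)))
      · exact Computable.fst.comp Computable.fst
      · exact ev_c (Computable.const p) (Computable.fst.comp Computable.fst) Computable.snd
      · exact Computable.const _
    · constructor
      · intro h
        obtain ⟨j, hj1, hj2⟩ := (hB n).resolve_left h
        refine ⟨(sg p z j).length + 1, sg p z j, ?_, ?_, ?_, ?_⟩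
        · have h1 : sg p z (j + 1) = (sg p z j ++ [false]) ++ [z j] := by
            rw [sg_succ, hj1, hj2]
            simp [dbl]
          have h2 : Pr (sg p z j ++ [false]) (ZZ p z) :=
            (Pr_sg (j + 1)).mono (by rw [h1]; exact List.prefix_append _ _)
          have h3 : (sg p z j ++ [false]).length = (sg p z j).length + 1 := by simp
          rw [← h3]
          exact h2
        · rw [P_sg]
        · rw [P_sg]
          exact hj1
        · rw [← Bool.not_eq_true]
          intro h4
          exact h ⟨_, by rw [seg_sg]; exact h4⟩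
      · rintro ⟨s, y, h1, h2, h3, h4⟩ ⟨t, ht⟩
        have hs : s = y.length + 1 := by
          have := congrArg List.length h1
          rwa [seg_length, List.length_append] at this
        have hy : seg (ZZ p z) y.length = y := by
          have h5 : (seg (ZZ p z) s).take y.length = y := by
            rw [h1, List.take_left']
            rfl
          rwa [seg_take _ (by omega)] at h5
        rw [← hy] at h2
        obtain ⟨j, hj1, hj2⟩ := start_iff h2
        rw [hy] at hj2
        subst hj2
        rw [P_sg] at h3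
        have h3' : j.unpair.1 = n := h3
        have h6 : rho p n (sg p z j) = [] := by
          by_contra hne
          have h7 : ∃ b r, rho p n (sg p z j) = b :: r := by
            cases hr : rho p n (sg p z j) with
            | nil => exact absurd hr hne
            | cons b r => exact ⟨b, r, rfl⟩
          obtain ⟨b, r, hr⟩ := h7
          have h8 : sg p z (j + 1) = sg p z j ++ (true :: b :: (dbl r ++ [false, z j])) := by
            rw [sg_succ, h3', hr, dbl_cons]
            rfl
          have h9 : Pr (sg p z j ++ [true]) (ZZ p z) := (Pr_sg (j + 1)).mono (by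
            rw [h8]
            exact ⟨b :: (dbl r ++ [false, z j]), by simp⟩)
          have h10 : Pr (sg p z j ++ [false]) (ZZ p z) := by
            rw [← h1]
            exact Pr_seg _ _
          have h11 : sg p z j ++ [true] = sg p z j ++ [false] := by
            rw [← h9, ← h10]
            congr 1
            simp
          simp at h11
        have h12 : ev p n (sg p z j) = true := by
          rcases le_total t (sg p z j).length with h13 | h13
          · have h14 := ev_mono (seg_prefix (ZZ p z) h13) ht
            rwa [seg_sg] at h14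
          · obtain ⟨w, hw⟩ := seg_prefix (ZZ p z) h13
            rw [seg_sg] at hw
            rw [← hw] at ht
            exact rho_nil h6 ht
        rw [h12] at h4
        exact absurd h4 (by decide)

/-! The oracle is computable from the coded set if this set computes the halting problem. -/

/-- the halting problem -/
noncomputable def K0 : ℕ → Bool := ch (J fun _ => false)

theorem co_re {α : Type} [Primcodable α] {Q : α → Prop} (hQ : REPred Q) (hz : le K0 z) :
    REIn (St z) fun a => ¬ Q a := by
  have h1 : REPred fun q : ℕ × Str => ∃ a : α, decode q.1 = some a ∧ Q a := by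
    refine RE.ex (p := fun (q : ℕ × Str) (a : α) => decode q.1 = some a ∧ Q a) (RE.and ?_ ?_)
    · exact RE.eq (Computable.decode.comp (Computable.fst.comp Computable.fst))
        (Computable.option_some.comp Computable.snd)
    · exact RE.comp hQ Computable.snd
  have h2 : Partrec fun q : ℕ × Str => ((Part.assert (∃ a : α, decode q.1 = some a ∧ Q a)
      fun _ => Part.some ()).map fun _ => (0 : ℕ)) := Partrec.map h1 (Computable.const 0).to₂
  obtain ⟨c, hc⟩ : ∃ c : Code, ∀ q : ℕ × Str, (c.eval (encode q)).Dom ↔
      ∃ a : α, decode q.1 = some a ∧ Q a := by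
    have hq : Partrec (fun p : ℕ => (Part.ofOption (decode (α := ℕ × Str) p)).bind
        fun q : ℕ × Str => ((Part.assert (∃ a : α, decode q.1 = some a ∧ Q a)
          fun _ => Part.some ()).map fun _ => (0 : ℕ))) :=
      Partrec.bind (Computable.ofOption Computable.decode) (h2.comp Computable.snd).to₂
    obtain ⟨c, hc⟩ := Nat.Partrec.Code.exists_code.1 (Partrec.nat_iff.1 hq)
    refine ⟨c, fun q => ?_⟩
    rw [hc]
    change ((Part.ofOption (decode (α := ℕ × Str) (encode q))).bind _).Dom ↔ _
    rw [encodek]
    simp [Part.assert]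
  have h3 : ∀ a : α, Q a ↔ K0 (Nat.pair (encode c) (encode a)) = true := by
    intro a
    unfold K0 ch J W
    simp only [decide_eq_true_eq, Nat.unpair_pair, Denumerable.ofNat_encode]
    constructor
    · intro h
      exact ⟨0, (hc (encode a, _)).2 ⟨a, encodek a, h⟩⟩
    · rintro ⟨s, hs⟩
      obtain ⟨a', h4, h5⟩ := (hc (encode a, _)).1 hs
      rw [encodek] at h4
      rw [Option.some.inj h4]
      exact h5
  have h4 : REIn (St K0) fun n => K0 n = false := (le_iff.1 (K4.2.2.1 K0)).2
  refine ((K4_re hz h4).comp (f := fun a : α => Nat.pair (encode c) (encode a)) ?_).of_eq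
    fun a => ?_
  · exact (Primrec₂.natPair.comp (Primrec.const _) Primrec.encode).to_comp
  · rw [h3 a]
    simp

theorem dir_re : REPred fun q : (ℕ × Str) × Str => Dir p q.1.1 q.1.2 q.2 := by
  unfold Dir
  refine RE.and (RE.eq ?_ (Computable.const _)) ?_
  · exact ev_c (Computable.const p) (Computable.fst.comp Computable.fst)
      (Primrec.list_append.comp (Primrec.snd.comp Primrec.fst) Primrec.snd).to_comp
  · refine RE.all_lt (p := fun (q : (ℕ × Str) × Str) (i : ℕ) =>
      ev p q.1.1 (q.1.2 ++ q.2.take i) = false) (RE.eq ?_ (Computable.const _))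
      (f := fun q => q.2.length) (Primrec.list_length.to_comp.comp Computable.snd)
    exact ev_c (Computable.const p)
      (Computable.fst.comp (Computable.fst.comp Computable.fst))
      (Primrec.list_append.comp (Primrec.snd.comp (Primrec.fst.comp Primrec.fst))
        (Primrec.list_take.comp Primrec.snd (Primrec.snd.comp Primrec.fst))).to_comp

theorem not_dir_re : REPred fun q : (ℕ × Str) × Str => ¬ Dir p q.1.1 q.1.2 q.2 := by
  have h : ∀ q : (ℕ × Str) × Str, (¬ Dir p q.1.1 q.1.2 q.2) ↔
      (ev p q.1.1 (q.1.2 ++ q.2) = false ∨ ∃ i : ℕ, i < q.2.length ∧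
        ev p q.1.1 (q.1.2 ++ q.2.take i) = true) := by
    intro q
    unfold Dir
    rw [not_and_or, Bool.not_eq_true]
    refine or_congr Iff.rfl ?_
    push Not
    simp
  have h2 : REPred fun q : (ℕ × Str) × Str => (ev p q.1.1 (q.1.2 ++ q.2) = false ∨
      ∃ i : ℕ, i < q.2.length ∧ ev p q.1.1 (q.1.2 ++ q.2.take i) = true) := by
    refine RE.or (RE.eq ?_ (Computable.const _)) ?_
    · exact ev_c (Computable.const p) (Computable.fst.comp Computable.fst)
        (Primrec.list_append.comp (Primrec.snd.comp Primrec.fst) Primrec.snd).to_comp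
    · refine RE.ex (p := fun (q : (ℕ × Str) × Str) (i : ℕ) => i < q.2.length ∧
        ev p q.1.1 (q.1.2 ++ q.2.take i) = true) (RE.and (RE.lt Computable.snd ?_)
        (RE.eq ?_ (Computable.const _)))
      · exact Primrec.list_length.to_comp.comp (Computable.snd.comp Computable.fst)
      · exact ev_c (Computable.const p)
          (Computable.fst.comp (Computable.fst.comp Computable.fst))
          (Primrec.list_append.comp (Primrec.snd.comp (Primrec.fst.comp Primrec.fst))
            (Primrec.list_take.comp Primrec.snd (Primrec.snd.comp Primrec.fst))).to_comp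
  have h3 : (fun q : (ℕ × Str) × Str => ¬ Dir p q.1.1 q.1.2 q.2) = fun q =>
      (ev p q.1.1 (q.1.2 ++ q.2) = false ∨ ∃ i : ℕ, i < q.2.length ∧
        ev p q.1.1 (q.1.2 ++ q.2.take i) = true) := funext fun q => propext (h q)
  rw [h3]
  exact h2

theorem rho_iff (n : ℕ) (x y : Str) : rho p n x = y ↔
    (∃ c, Dir p n x (sd c) ∧ (∀ c' < c, ¬ Dir p n x (sd c')) ∧ y = sd c) ∨
      ((¬ ∃ c, Dir p n x (sd c)) ∧ y = []) := by
  classical
  unfold rho
  split_ifs with h
  · constructor
    · rintro rfl
      exact Or.inl ⟨Nat.find h, Nat.find_spec h, fun c' hc' => Nat.find_min h hc', rfl⟩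
    · rintro (⟨c, h1, h2, rfl⟩ | ⟨h1, -⟩)
      · rw [(Nat.find_eq_iff h).2 ⟨h1, h2⟩]
      · exact absurd h h1
  · constructor
    · rintro rfl
      exact Or.inr ⟨h, rfl⟩
    · rintro (⟨c, h1, -⟩ | ⟨-, rfl⟩)
      · exact absurd ⟨c, h1⟩ h
      · rfl

theorem rho_re (hz : le K0 z) :
    REIn (St z) fun q : (ℕ × Str) × Str => rho p q.1.1 q.1.2 = q.2 := by
  have h1 : REIn (St z) fun q : (ℕ × Str) × Str =>
      (∃ c, Dir p q.1.1 q.1.2 (sd c) ∧ (∀ c' < c, ¬ Dir p q.1.1 q.1.2 (sd c')) ∧ q.2 = sd c) ∨
      ((¬ ∃ c, Dir p q.1.1 q.1.2 (sd c)) ∧ q.2 = []) := by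
    refine REIn.or (REIn.of_re ?_) (REIn.and ?_ (REIn.of_re ?_))
    · refine RE.ex (p := fun (q : (ℕ × Str) × Str) (c : ℕ) => Dir p q.1.1 q.1.2 (sd c) ∧
        (∀ c' < c, ¬ Dir p q.1.1 q.1.2 (sd c')) ∧ q.2 = sd c) (RE.and ?_ (RE.and ?_ ?_))
      · exact RE.comp dir_re (f := fun a : ((ℕ × Str) × Str) × ℕ => (a.1.1, sd a.2))
          ((Computable.fst.comp Computable.fst).pair (sd_comp.comp Computable.snd))
      · refine RE.all_lt (p := fun (a : ((ℕ × Str) × Str) × ℕ) (c' : ℕ) =>
          ¬ Dir p a.1.1.1 a.1.1.2 (sd c')) ?_ (f := fun a => a.2) Computable.snd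
        exact RE.comp not_dir_re (f := fun a : (((ℕ × Str) × Str) × ℕ) × ℕ =>
          (a.1.1.1, sd a.2)) ((Computable.fst.comp (Computable.fst.comp Computable.fst)).pair
            (sd_comp.comp Computable.snd))
      · exact RE.eq (Computable.snd.comp Computable.fst) (sd_comp.comp Computable.snd)
    · refine co_re (Q := fun q : (ℕ × Str) × Str => ∃ c, Dir p q.1.1 q.1.2 (sd c)) ?_ hz
      refine RE.ex (p := fun (q : (ℕ × Str) × Str) (c : ℕ) => Dir p q.1.1 q.1.2 (sd c)) ?_
      exact RE.comp dir_re (f := fun a : ((ℕ × Str) × Str) × ℕ => (a.1.1, sd a.2))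
          ((Computable.fst.comp Computable.fst).pair (sd_comp.comp Computable.snd))
    · exact RE.eq Computable.snd (Computable.const _)
  exact h1.of_eq fun q => (rho_iff _ _ _).symm

theorem dbl_prim : Primrec dbl := by
  unfold dbl
  refine Primrec.list_flatMap Primrec.id ?_
  exact Primrec.list_cons.comp (Primrec.const true) (Primrec.list_cons.comp Primrec.snd
    (Primrec.const []))

/-- one step of the construction -/
def Stp (p : ℕ) (z : ℕ → Bool) (i : ℕ) (u v : Str) : Prop :=
  ∃ (y : Str) (b : Bool), rho p i.unpair.1 u = y ∧ z i = b ∧ v = u ++ (dbl y ++ [false, b])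

theorem sg_iff (j : ℕ) (x : Str) : sg p z j = x ↔ ∃ l : List Str, l[0]? = some [] ∧
    l[j]? = some x ∧ ∀ i < j, ∃ u v : Str, l[i]? = some u ∧ l[i + 1]? = some v ∧
      Stp p z i u v := by
  constructor
  · rintro rfl
    refine ⟨(List.range (j + 1)).map (sg p z), ?_, ?_, fun i hi => ?_⟩
    · simp
      rfl
    · simp
    · refine ⟨sg p z i, sg p z (i + 1), ?_, ?_, _, _, rfl, rfl, sg_succ p z i⟩
      · rw [List.getElem?_map, List.getElem?_range (by omega)]
        rfl
      · rw [List.getElem?_map, List.getElem?_range (by omega)]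
        rfl
  · rintro ⟨l, h1, h2, h3⟩
    have key : ∀ i ≤ j, l[i]? = some (sg p z i) := by
      intro i
      induction i with
      | zero => exact fun _ => h1
      | succ i ih =>
        intro hi
        obtain ⟨u, v, h4, h5, y, b, h6, h7, h8⟩ := h3 i (by omega)
        rw [ih (by omega)] at h4
        have h9 := Option.some.inj h4
        subst h9 h6 h7
        rw [h5, h8, sg_succ]
    rw [key j (le_refl j)] at h2
    exact Option.some.inj h2

theorem sg_re (hz : le K0 z) : REIn (St z) fun q : ℕ × Str => sg p z q.1 = q.2 := by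
  have hzb : REIn (St z) fun q : ℕ × Bool => z q.1 = q.2 := by
    obtain ⟨h1, h2⟩ := le_iff.1 (K4.2.2.1 z)
    have h3 : REIn (St z) fun q : ℕ × Bool => (z q.1 = true ∧ q.2 = true) ∨
        (z q.1 = false ∧ q.2 = false) := by
      refine REIn.or (REIn.and (h1.comp Computable.fst) (REIn.of_re (RE.eq Computable.snd
        (Computable.const _)))) (REIn.and (h2.comp Computable.fst) (REIn.of_re
          (RE.eq Computable.snd (Computable.const _))))
    refine h3.of_eq fun q => ?_
    cases h4 : z q.1 <;> cases h5 : q.2 <;> simp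
  have hst : REIn (St z) fun q : ℕ × (Str × Str) => Stp p z q.1 q.2.1 q.2.2 := by
    unfold Stp
    refine REIn.ex (S := fun (q : ℕ × (Str × Str)) (y : Str) => ∃ b : Bool,
      rho p q.1.unpair.1 q.2.1 = y ∧ z q.1 = b ∧ q.2.2 = q.2.1 ++ (dbl y ++ [false, b])) ?_
    refine REIn.ex (S := fun (q : (ℕ × (Str × Str)) × Str) (b : Bool) =>
      rho p q.1.1.unpair.1 q.1.2.1 = q.2 ∧ z q.1.1 = b ∧
        q.1.2.2 = q.1.2.1 ++ (dbl q.2 ++ [false, b])) ?_
    refine REIn.and ?_ (REIn.and ?_ (REIn.of_re (RE.eq ?_ ?_)))
    · refine (rho_re (p := p) hz).comp (f := fun a : ((ℕ × (Str × Str)) × Str) × Bool =>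
        ((a.1.1.1.unpair.1, a.1.1.2.1), a.1.2)) ?_
      refine Computable.pair (Computable.pair ?_ ?_) (Computable.snd.comp Computable.fst)
      · exact Computable.fst.comp (Computable.unpair.comp (Computable.fst.comp
          (Computable.fst.comp Computable.fst)))
      · exact Computable.fst.comp (Computable.snd.comp (Computable.fst.comp Computable.fst))
    · exact hzb.comp (f := fun a : ((ℕ × (Str × Str)) × Str) × Bool => (a.1.1.1, a.2))
        ((Computable.fst.comp (Computable.fst.comp Computable.fst)).pair Computable.snd)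
    · exact Computable.snd.comp (Computable.snd.comp (Computable.fst.comp Computable.fst))
    · refine (Primrec.list_append.comp ?_ (Primrec.list_append.comp (dbl_prim.comp ?_)
        (Primrec.list_cons.comp (Primrec.const false) (Primrec.list_cons.comp Primrec.snd
          (Primrec.const []))))).to_comp
      · exact Primrec.fst.comp (Primrec.snd.comp (Primrec.fst.comp Primrec.fst))
      · exact Primrec.snd.comp Primrec.fst
  have h1 : REIn (St z) fun q : ℕ × Str => ∃ l : List Str, l[0]? = some [] ∧
      l[q.1]? = some q.2 ∧ ∀ i < q.1, ∃ u v : Str, l[i]? = some u ∧ l[i + 1]? = some v ∧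
      Stp p z i u v := by
    refine REIn.ex (S := fun (q : ℕ × Str) (l : List Str) => l[0]? = some [] ∧
      l[q.1]? = some q.2 ∧ ∀ i < q.1, ∃ u v : Str, l[i]? = some u ∧ l[i + 1]? = some v ∧
      Stp p z i u v) (REIn.and (REIn.of_re (RE.eq ?_ (Computable.const _)))
        (REIn.and (REIn.of_re (RE.eq ?_ ?_)) ?_))
    · exact (Primrec.list_getElem?.comp Primrec.snd (Primrec.const 0)).to_comp
    · exact (Primrec.list_getElem?.comp Primrec.snd (Primrec.fst.comp Primrec.fst)).to_comp
    · exact Computable.option_some.comp (Computable.snd.comp Computable.fst)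
    · refine REIn.all_lt (S := fun (a : (ℕ × Str) × List Str) (i : ℕ) => ∃ u v : Str,
        a.2[i]? = some u ∧ a.2[i + 1]? = some v ∧ Stp p z i u v) ?_ (f := fun a => a.1.1)
        (Computable.fst.comp Computable.fst)
      refine REIn.ex (S := fun (a : ((ℕ × Str) × List Str) × ℕ) (u : Str) => ∃ v : Str,
        a.1.2[a.2]? = some u ∧ a.1.2[a.2 + 1]? = some v ∧ Stp p z a.2 u v) ?_
      refine REIn.ex (S := fun (a : (((ℕ × Str) × List Str) × ℕ) × Str) (v : Str) =>
        a.1.1.2[a.1.2]? = some a.2 ∧ a.1.1.2[a.1.2 + 1]? = some v ∧ Stp p z a.1.2 a.2 v)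
        (REIn.and (REIn.of_re (RE.eq ?_ ?_)) (REIn.and (REIn.of_re (RE.eq ?_ ?_)) ?_))
      · exact (Primrec.list_getElem?.comp (Primrec.snd.comp (Primrec.fst.comp
          (Primrec.fst.comp Primrec.fst))) (Primrec.snd.comp (Primrec.fst.comp
            Primrec.fst))).to_comp
      · exact Computable.option_some.comp (Computable.snd.comp Computable.fst)
      · exact (Primrec.list_getElem?.comp (Primrec.snd.comp (Primrec.fst.comp
          (Primrec.fst.comp Primrec.fst))) (Primrec.succ.comp (Primrec.snd.comp
            (Primrec.fst.comp Primrec.fst)))).to_comp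
      · exact Computable.option_some.comp Computable.snd
      · exact hst.comp (f := fun a : ((((ℕ × Str) × List Str) × ℕ) × Str) × Str =>
          (a.1.1.2, (a.1.2, a.2))) ((Computable.snd.comp (Computable.fst.comp
            Computable.fst)).pair ((Computable.snd.comp Computable.fst).pair Computable.snd))
  exact h1.of_eq fun q => (sg_iff _ _).symm

theorem ZZ_le_z (hz : le K0 z) : le (ZZ p z) z := by
  have key : ∀ b : Bool, REIn (St z) fun n => ZZ p z n = b := by
    intro b
    have h1 : REIn (St z) fun n => ∃ x : Str, sg p z (n + 1) = x ∧ x.getD n false = b := by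
      refine REIn.ex (S := fun (n : ℕ) (x : Str) => sg p z (n + 1) = x ∧ x.getD n false = b)
        (REIn.and ?_ (REIn.of_re (RE.eq ?_ (Computable.const _))))
      · exact (sg_re (p := p) hz).comp (f := fun a : ℕ × Str => (a.1 + 1, a.2))
          ((Computable.succ.comp Computable.fst).pair Computable.snd)
      · exact ((Primrec.list_getD false).comp Primrec.snd Primrec.fst).to_comp
    refine h1.of_eq fun n => ?_
    unfold ZZ
    constructor
    · rintro ⟨x, rfl, h⟩
      exact h
    · intro h
      exact ⟨_, rfl, h⟩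
  exact le_iff.2 ⟨key true, key false⟩

end Pool.Agent.Q206.FS
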