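import Pool.Agent.Q206.FS.Deg
import Pool.Agent.Q206.FS.Rel

/-!
The dichotomy, and solutions to Post's problem.
-/

set_option autoImplicit false

namespace Pool.Agent.Q206.FS

open Nat.Partrec (Code)
open Nat.Partrec.Code (evaln)
open Encodable
open Pool.Agent.H639.LU
open Pool.Agent.Helper446 Pool.Agent.Helper446.Defs Pool.Agent.Helper446.Oracle

theorem le_trans' {X Y Z : ℕ → Bool} (h1 : le X Y) (h2 : le Y Z) : le X Z := K4.2.1 _ _ _ h1 h2

theorem le_refl' (X : ℕ → Bool) : le X X := K4.2.2.1 X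

theorem pull_W (e : Code) : ∃ r : ℕ, ∀ (X : ℕ → Bool) (n : ℕ),
    (∃ t, ev r n (seg X t) = true) ↔ W e (hat (zs 0 X)) n :=
  pull (R := fun n x => (e.eval (encode (n, x))).Dom)
    (RE.comp K5_univ (f := fun p : ℕ × Str => (e, p.1, p.2))
      ((Computable.const e).pair (Computable.fst.pair Computable.snd)))

theorem pull_J : ∃ r : ℕ, ∀ (X : ℕ → Bool) (n : ℕ),
    (∃ t, ev r n (seg X t) = true) ↔ J (hat (zs 0 X)) n :=
  pull (R := fun n x => ((Denumerable.ofNat Code n.unpair.1).eval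
      (encode (n.unpair.2, x))).Dom)
    (RE.comp K5_univ (f := fun p : ℕ × Str =>
      (Denumerable.ofNat Code p.1.unpair.1, p.1.unpair.2, p.2))
      (((Computable.ofNat Code).comp (Computable.fst.comp (Computable.unpair.comp
        Computable.fst))).pair ((Computable.snd.comp (Computable.unpair.comp
          Computable.fst)).pair Computable.snd)))

/-- The dichotomy. -/
theorem dichotomy (e : Code) (z : ℕ → Bool) : ∃ X : ℕ → Bool, le z X ∧ (le K0 z → le X z) ∧
    (le (ch (W e X)) X ∨ ∃ (n : ℕ) (w : ℕ → List ℕ), Computable w ∧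
      ∀ m, J X m ↔ W e (X ∘ along pi1 pi2 (w m)) n) := by
  obtain ⟨p, hp⟩ := pull_W e
  obtain ⟨a, ha⟩ := pull_J
  refine ⟨hat (zs 0 (ZZ p z)), le_trans' (z_le_ZZ p z) (le_hat _),
    fun hz => le_trans' (hat_le _) (ZZ_le_z hz), ?_⟩
  by_cases hB : ∀ n, (∃ t, ev p n (seg (ZZ p z) t) = true) ∨
    ∃ j : ℕ, j.unpair.1 = n ∧ rho p n (sg p z j) = []
  · left
    obtain ⟨h1, h2⟩ := caseB hB
    refine (K5 K2).2.2.1 _ _ ?_ ?_
    · exact (K4_re (le_hat _) h1).of_eq fun n => hp _ n
    · exact (K4_re (le_hat _) h2).of_eq fun n => not_congr (hp _ n)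
  · right
    push Not at hB
    obtain ⟨n, hn1, hn2⟩ := hB
    have hn : ∀ t, ev p n (seg (ZZ p z) t) = false := fun t => by
      have := hn1 t
      rwa [ne_eq, Bool.not_eq_true] at this
    refine ⟨n, fun m => wd (lb a m p n), ?_, fun m => ?_⟩
    · refine wd_comp.comp ?_
      exact (Primrec₂.natPair.comp (Primrec₂.natPair.comp (Primrec.const a) Primrec.id)
        (Primrec.const _)).to_comp
    · obtain ⟨h1, h2⟩ := depart (a := a) (m := m) hn2 hn
      rw [hat_wd h1, ← hp, h2, ha]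

/-- computable permutations do not change the degree -/
theorem le_comp {g h : ℕ → ℕ} (hg : Computable g) (hh : Computable h) (hgh : ∀ n, g (h n) = n)
    (X : ℕ → Bool) : le (X ∘ g) X ∧ le X (X ∘ g) := by
  refine ⟨K4.2.2.2 _ _ g hg fun n => rfl, K4.2.2.2 _ _ h hh fun n => ?_⟩
  change X n = X (g (h n))
  rw [hgh]

theorem exists_id : ∃ d : Code, ∀ X : ℕ → Bool, Red d X X := by
  obtain ⟨d, hd⟩ := K1 (fun q : ℕ × Str => (q.2[q.1]?).map Bool.toNat) (by
    refine (Primrec.option_map (f := fun q : ℕ × Str => q.2[q.1]?)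
      (g := fun _ b => Bool.toNat b) ?_ ?_).to_comp
    · exact Primrec.list_getElem?.comp Primrec.snd Primrec.fst
    · exact (Primrec.dom_bool Bool.toNat).comp Primrec.snd)
  refine ⟨d, fun X n v => ?_⟩
  constructor
  · rintro ⟨s, hs⟩
    rw [hd, Part.mem_ofOption, Option.mem_def, Option.map_eq_some_iff] at hs
    obtain ⟨b, hb1, hb2⟩ := hs
    obtain ⟨h3, h4⟩ := List.getElem?_eq_some_iff.1 hb1
    have h5 := (Pr_seg X s).get h3
    rw [List.getD_eq_getElem?_getD, hb1] at h5
    rw [← hb2, ← h5]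
    rfl
  · rintro rfl
    refine ⟨n + 1, ?_⟩
    rw [hd, Part.mem_ofOption, Option.mem_def, Option.map_eq_some_iff]
    exact ⟨X n, seg_getElem? X _ _ (Nat.lt_succ_self n), rfl⟩

section

variable {π ρ : Equiv.Perm ℕ}

theorem gen_le (h0 : Computable π) (h1 : Computable π.symm) (h2 : Computable ρ)
    (h3 : Computable ρ.symm) (l : ℕ) (X : ℕ → Bool) :
    le (X ∘ gen π ρ l) X ∧ le X (X ∘ gen π ρ l) := by
  unfold gen
  split_ifs
  · exact le_comp h0 h1 (fun n => π.apply_symm_apply n) X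
  · exact le_comp h1 h0 (fun n => π.symm_apply_apply n) X
  · exact le_comp h2 h3 (fun n => ρ.apply_symm_apply n) X
  · exact le_comp h3 h2 (fun n => ρ.symm_apply_apply n) X

/-- Uniform invariance along the words. -/
theorem uniform (e : Code) (c : ℕ → Code) (hc : Computable c) (X : ℕ → Bool)
    (h0 : Computable π) (h1 : Computable π.symm) (h2 : Computable ρ) (h3 : Computable ρ.symm)
    (h : ∀ Y, le X Y → le Y X → ∀ l, Red (c l) (ch (W e Y)) (ch (W e (Y ∘ gen π ρ l)))) :
    ∃ d : List ℕ → Code, Computable d ∧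
      ∀ w, Red (d w) (ch (W e X)) (ch (W e (X ∘ along π ρ w))) := by
  obtain ⟨κ, hκ1, hκ2⟩ := K7
  obtain ⟨d, hd⟩ := exists_id
  have key : ∀ (w : List ℕ) (Y : ℕ → Bool) (a : Code), le X Y → le Y X →
      Red a (ch (W e X)) (ch (W e Y)) →
      Red (w.foldl (fun a l => κ (a, c l)) a) (ch (W e X)) (ch (W e (Y ∘ along π ρ w))) := by
    intro w
    induction w with
    | nil => exact fun Y a _ _ hr => hr
    | cons l w ih =>
      intro Y a hY1 hY2 hr
      have h4 := gen_le h0 h1 h2 h3 l Y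
      have h5 := ih (Y ∘ gen π ρ l) (κ (a, c l)) (le_trans' hY1 h4.2) (le_trans' h4.1 hY2)
        (hκ2 _ _ _ _ _ hr (h Y hY1 hY2 l))
      rw [along_cons]
      exact h5
  refine ⟨fun w => w.foldl (fun a l => κ (a, c l)) d, ?_, fun w =>
    key w X d (le_refl' X) (le_refl' X) (hd _)⟩
  refine RE.list_foldl (f := fun w : List ℕ => w) (g := fun _ => d)
    (h := fun _ q => κ (q.1, c q.2)) Computable.id (Computable.const d) ?_
  exact hκ1.comp ((Computable.fst.comp Computable.snd).pair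
    (hc.comp (Computable.snd.comp Computable.snd)))

end

/-- the program for the letter `l` -/
def cl (c₀ c₁ c₂ c₃ : Code) (l : ℕ) : Code :=
  if l = 0 then c₀ else if l = 1 then c₁ else if l = 2 then c₂ else c₃

theorem cl_comp (c₀ c₁ c₂ c₃ : Code) : Computable (cl c₀ c₁ c₂ c₃) := by
  unfold cl
  exact (Primrec.ite (Primrec.eq.comp Primrec.id (Primrec.const 0)) (Primrec.const c₀)
    (Primrec.ite (Primrec.eq.comp Primrec.id (Primrec.const 1)) (Primrec.const c₁)
      (Primrec.ite (Primrec.eq.comp Primrec.id (Primrec.const 2)) (Primrec.const c₂)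
        (Primrec.const c₃)))).to_comp

theorem jump_le {π ρ : Equiv.Perm ℕ} {e : Code} {X : ℕ → Bool} {d : List ℕ → Code}
    (hd : Computable d)
    (hd2 : ∀ w, Red (d w) (ch (W e X)) (ch (W e (X ∘ along π ρ w)))) {n : ℕ} {w : ℕ → List ℕ}
    (hw : Computable w) (h : ∀ m, J X m ↔ W e (X ∘ along π ρ (w m)) n) :
    le (ch (J X)) (ch (W e X)) := by
  have h1 : ∀ v : ℕ, REIn (St (ch (W e X))) fun m : ℕ =>
      v = (ch (W e (X ∘ along π ρ (w m))) n).toNat := by
    intro v
    have h2 : REIn (St (ch (W e X))) fun m : ℕ => ∃ s,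
        v ∈ (d (w m)).eval (encode (n, seg (ch (W e X)) s)) := by
      refine (K2 ℕ _ _).2 ⟨fun m x => v ∈ (d (w m)).eval (encode (n, x)), ?_, fun m => Iff.rfl⟩
      have h3 : REPred (fun q : ℕ × Str => ∃ k : ℕ,
          evaln k (d (w q.1)) (encode (n, q.2)) = some v) := by
        refine RE.ex (p := fun (q : ℕ × Str) (k : ℕ) =>
          evaln k (d (w q.1)) (encode (n, q.2)) = some v) ?_
        refine RE.eq ?_ (Computable.const _)
        refine Nat.Partrec.Code.primrec_evaln.to_comp.comp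
          (f := fun a : (ℕ × Code) × ℕ => evaln a.1.1 a.1.2 a.2)
          (g := fun x : (ℕ × Str) × ℕ => ((x.2, d (w x.1.1)), encode (n, x.1.2))) ?_
        exact (Computable.snd.pair (hd.comp (hw.comp (Computable.fst.comp
          Computable.fst)))).pair (Computable.encode.comp ((Computable.const n).pair
            (Computable.snd.comp Computable.fst)))
      have h4 : (fun q : ℕ × Str => v ∈ (d (w q.1)).eval (encode (n, q.2))) =
          fun q : ℕ × Str => ∃ k : ℕ, evaln k (d (w q.1)) (encode (n, q.2)) = some v := by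
        funext q
        exact propext Nat.Partrec.Code.evaln_complete
      rw [h4]
      exact h3
    exact h2.of_eq fun m => hd2 (w m) n v
  refine (K5 K2).2.2.1 _ _ ((h1 1).of_eq fun m => ?_) ((h1 0).of_eq fun m => ?_)
  · rw [h m]
    unfold ch
    by_cases h5 : W e (X ∘ along π ρ (w m)) n <;> simp [h5]
  · rw [h m]
    unfold ch
    by_cases h5 : W e (X ∘ along π ρ (w m)) n <;> simp [h5]

/-- In no degree above `0'` a solution to Post's problem is uniformly invariant under the two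
permutations. -/
theorem no_uniform (e : Code) (z : ℕ → Bool) (hz : le K0 z)
    (hP : ∀ X, le z X → le X z → ¬ le (ch (W e X)) X ∧ ¬ le (ch (J X)) (ch (W e X)))
    (c₀ c₁ c₂ c₃ : Code) : ∃ X, le z X ∧ le X z ∧ ¬ (
      Red c₀ (ch (W e X)) (ch (W e (X ∘ pi1))) ∧ Red c₁ (ch (W e X)) (ch (W e (X ∘ pi1.symm))) ∧
      Red c₂ (ch (W e X)) (ch (W e (X ∘ pi2))) ∧
      Red c₃ (ch (W e X)) (ch (W e (X ∘ pi2.symm)))) := by
  by_contra hcon
  push Not at hcon
  obtain ⟨X, hX1, hX2, hX3⟩ := dichotomy e z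
  have hX4 := hX2 hz
  obtain ⟨hP1, hP2⟩ := hP X hX1 hX4
  rcases hX3 with h | ⟨n, w, hw, h⟩
  · exact hP1 h
  · obtain ⟨d, hd1, hd2⟩ := uniform (π := pi1) (ρ := pi2) e (cl c₀ c₁ c₂ c₃)
      (cl_comp c₀ c₁ c₂ c₃) X (tau_prim 0).to_comp (tau_prim 1).to_comp (tau_prim 2).to_comp
      (tau_prim 3).to_comp (fun Y h1 h2 l => by
        obtain ⟨g0, g1, g2, g3⟩ := hcon Y (le_trans' hX1 h1) (le_trans' h2 hX4)
        unfold cl gen
        split_ifs
        exacts [g0, g1, g2, g3])
    exact hP2 (jump_le hd1 hd2 hw h)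

end Pool.Agent.Q206.FS
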