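import Pool.Agent.Q206.FS.Lim
import Pool.Agent.H639.LU.K1

/-!
The configuration of an oracle on the free group, and two permutations.
-/

set_option autoImplicit false

namespace Pool.Agent.Q206.FS

open Nat.Partrec (Code)
open Encodable
open Pool.Agent.H639.LU
open Pool.Agent.Helper446.Defs

/-- the inverse letter -/
def iv (l : ℕ) : ℕ := if l = 0 then 1 else if l = 1 then 0 else if l = 2 then 3 else 2

/-- reduced words -/
def vd : List ℕ → Bool
  | [] => true
  | l :: w => decide (l < 4) && (!decide (w.head? = some (iv l)) && vd w)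

/-- the letter `l` times the reduced word `w` -/
def mul (l : ℕ) (w : List ℕ) : List ℕ := if w.head? = some (iv l) then w.tail else l :: w

theorem iv_iv {l : ℕ} (h : l < 4) : iv (iv l) = l := by
  interval_cases l <;> rfl

theorem iv_lt (l : ℕ) : iv l < 4 := by
  unfold iv
  split_ifs <;> omega

theorem vd_cons {l : ℕ} {w : List ℕ} :
    vd (l :: w) = true ↔ l < 4 ∧ w.head? ≠ some (iv l) ∧ vd w = true := by
  simp [vd]

theorem vd_mul {l : ℕ} (hl : l < 4) {w : List ℕ} (h : vd w = true) : vd (mul l w) = true := by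
  unfold mul
  split_ifs with h1
  · cases w with
    | nil => rfl
    | cons a w => exact (vd_cons.1 h).2.2
  · exact vd_cons.2 ⟨hl, h1, h⟩

theorem mul_mul {l : ℕ} (hl : l < 4) {w : List ℕ} (h : vd w = true) : mul (iv l) (mul l w) = w := by
  unfold mul
  split_ifs with h1 h2 h3
  · cases w with
    | nil => simp at h1
    | cons a w =>
      simp only [List.head?_cons, Option.some.injEq] at h1
      subst h1
      rw [iv_iv hl] at h2
      rw [List.tail_cons] at h2
      have h4 := (vd_cons.1 h).2.1
      rw [iv_iv hl] at h4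
      exact absurd h2 h4
  · cases w with
    | nil => simp at h1
    | cons a w =>
      simp only [List.head?_cons, Option.some.injEq] at h1
      rw [h1, List.tail_cons]
  · rfl
  · rw [iv_iv hl] at h3
    exact absurd rfl h3

/-- the permutation of the letter `l` -/
def tau (l c : ℕ) : ℕ :=
  if vd (Denumerable.ofNat (List ℕ × ℕ) c).1 = true then
    encode (mul l (Denumerable.ofNat (List ℕ × ℕ) c).1, (Denumerable.ofNat (List ℕ × ℕ) c).2)
  else c

theorem tau_enc (l : ℕ) (w : List ℕ) (i : ℕ) (h : vd w = true) :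
    tau l (encode (w, i)) = encode (mul l w, i) := by
  unfold tau
  rw [Denumerable.ofNat_encode]
  simp [h]

theorem tau_tau {l : ℕ} (hl : l < 4) (c : ℕ) : tau (iv l) (tau l c) = c := by
  by_cases h : vd (Denumerable.ofNat (List ℕ × ℕ) c).1 = true
  · have h1 : tau l c = encode (mul l (Denumerable.ofNat (List ℕ × ℕ) c).1,
        (Denumerable.ofNat (List ℕ × ℕ) c).2) := by
      unfold tau
      rw [if_pos h]
    rw [h1, tau_enc _ _ _ (vd_mul hl h), mul_mul hl h]
    exact Denumerable.encode_ofNat c
  · have h1 : ∀ l, tau l c = c := by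
      intro l
      unfold tau
      rw [if_neg h]
    rw [h1, h1]

theorem tau_tau' {l : ℕ} (hl : l < 4) (c : ℕ) : tau l (tau (iv l) c) = c := by
  have h := tau_tau (iv_lt l) c
  rwa [iv_iv hl] at h

/-- the first permutation -/
def pi1 : Equiv.Perm ℕ := ⟨tau 0, tau 1, tau_tau (l := 0) (by omega), tau_tau' (l := 0) (by omega)⟩

/-- the second permutation -/
def pi2 : Equiv.Perm ℕ := ⟨tau 2, tau 3, tau_tau (l := 2) (by omega), tau_tau' (l := 2) (by omega)⟩

/-- the permutations of the four letters -/
def gen (π ρ : Equiv.Perm ℕ) (l : ℕ) : Equiv.Perm ℕ :=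
  if l = 0 then π else if l = 1 then π.symm else if l = 2 then ρ else ρ.symm

theorem gen_tau {l : ℕ} (hl : l < 4) (c : ℕ) : gen pi1 pi2 l c = tau l c := by
  interval_cases l <;> rfl

/-- the letters of the word are applied to the sequence -/
def Xw (w : List ℕ) (X : ℕ → Bool) : ℕ → Bool := w.foldl (fun X l => L l X) X

/-- the configuration of the oracle `X` -/
def hat (X : ℕ → Bool) (c : ℕ) : Bool :=
  if vd (Denumerable.ofNat (List ℕ × ℕ) c).1 = true then
    Xw (Denumerable.ofNat (List ℕ × ℕ) c).1 X (Denumerable.ofNat (List ℕ × ℕ) c).2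
  else false

theorem hat_L {l : ℕ} (hl : l < 4) {X : ℕ → Bool} (h : L (iv l) (L l X) = X) :
    hat (L l X) = hat X ∘ gen pi1 pi2 l := by
  funext c
  rw [Function.comp_apply, gen_tau hl]
  obtain ⟨⟨w, i⟩, rfl⟩ : ∃ p : List ℕ × ℕ, encode p = c :=
    ⟨Denumerable.ofNat _ c, Denumerable.encode_ofNat c⟩
  by_cases hv : vd w = true
  · rw [tau_enc _ _ _ hv]
    unfold hat
    simp only [Denumerable.ofNat_encode, hv, vd_mul hl hv, if_true]
    unfold mul
    split_ifs with h1
    · cases w with
      | nil => simp at h1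
      | cons a w =>
        simp only [List.head?_cons, Option.some.injEq] at h1
        subst h1
        change Xw w (L (iv l) (L l X)) i = _
        rw [h]
        rfl
    · rfl
  · have h1 : tau l (encode (w, i)) = encode (w, i) := by
      unfold tau
      rw [Denumerable.ofNat_encode]
      simp [hv]
    rw [h1]
    unfold hat
    simp only [Denumerable.ofNat_encode, hv]
    rfl

/-- the product of the permutations of the letters of a word -/
def along (π ρ : Equiv.Perm ℕ) (w : List ℕ) : Equiv.Perm ℕ := (w.map (gen π ρ)).prod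

theorem along_nil (π ρ : Equiv.Perm ℕ) : along π ρ [] = 1 := rfl

theorem along_cons (π ρ : Equiv.Perm ℕ) (l : ℕ) (w : List ℕ) :
    along π ρ (l :: w) = gen π ρ l * along π ρ w := by
  unfold along
  rw [List.map_cons, List.prod_cons]

theorem along_append (π ρ : Equiv.Perm ℕ) (v w : List ℕ) :
    along π ρ (v ++ w) = along π ρ v * along π ρ w := by
  unfold along
  rw [List.map_append, List.prod_append]

theorem comp_along_append (π ρ : Equiv.Perm ℕ) (v w : List ℕ) (X : ℕ → Bool) :
    X ∘ along π ρ (v ++ w) = (X ∘ along π ρ v) ∘ along π ρ w := by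
  rw [along_append]
  rfl

theorem hat_up (X : ℕ → Bool) (k : ℕ) :
    hat (zs 0 X) ∘ along pi1 pi2 (List.replicate k 0) = hat (zs k X) := by
  induction k with
  | zero => rfl
  | succ k ih =>
    rw [List.replicate_succ', comp_along_append, ih, zs_succ, ← L0, hat_L (by omega)]
    · rfl
    · change L 1 (L 0 _) = _
      rw [L0, L1_cns]

theorem hat_down (X : ℕ → Bool) (k : ℕ) :
    hat (zs k X) ∘ along pi1 pi2 (List.replicate k 1) = hat (zs 0 X) := by
  induction k with
  | zero => rfl
  | succ k ih =>
    rw [List.replicate_succ, along_cons, ← ih]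
    have h1 : hat (zs k X) = hat (zs (k + 1) X) ∘ gen pi1 pi2 1 := by
      rw [← hat_L (by omega), zs_succ, L1_cns]
      rw [zs_succ, L1_cns]
      exact L0 _
    rw [h1]
    rfl

/-- the word of the label `k` -/
def wd (k : ℕ) : List ℕ := List.replicate k 0 ++ 3 :: List.replicate k 1

/-- The orbit of the configuration of `1 Z` contains the configurations of `1 F_k(Z)`. -/
theorem hat_wd {k : ℕ} {Z : ℕ → Bool} (h : GG k (FF k Z) = Z) :
    hat (zs 0 Z) ∘ along pi1 pi2 (wd k) = hat (zs 0 (FF k Z)) := by
  unfold wd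
  rw [comp_along_append, hat_up, along_cons, ← hat_down (FF k Z) k]
  have h1 : hat (zs k (FF k Z)) = hat (zs k Z) ∘ gen pi1 pi2 3 := by
    rw [← hat_L (by omega), L3_zs]
    rw [L3_zs]
    change L 2 _ = _
    rw [L2_zs, h]
  rw [h1]
  rfl

end Pool.Agent.Q206.FS
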