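import Pool.Agent.Q206.FS.Prm

/-!
Total maps of the Cantor space given by monotone maps of strings.
-/

set_option autoImplicit false

namespace Pool.Agent.Q206.FS

open Nat.Partrec (Code)
open Encodable
open Pool.Agent.H639.LU
open Pool.Agent.Helper446.Defs

/-- `x` is an initial segment of `X` -/
def Pr (x : Str) (X : ℕ → Bool) : Prop := seg X x.length = x

theorem seg_length (X : ℕ → Bool) (t : ℕ) : (seg X t).length = t := by simp [seg]

theorem seg_getElem? (X : ℕ → Bool) (t i : ℕ) (h : i < t) : (seg X t)[i]? = some (X i) := by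
  simp [seg, h]

theorem seg_getD (X : ℕ → Bool) (t i : ℕ) (h : i < t) : (seg X t).getD i false = X i := by
  rw [List.getD_eq_getElem?_getD, seg_getElem? X t i h]
  rfl

theorem seg_take (X : ℕ → Bool) {s t : ℕ} (h : s ≤ t) : (seg X t).take s = seg X s := by
  apply List.ext_getElem?
  intro i
  by_cases hi : i < s
  · rw [List.getElem?_take_of_lt hi, seg_getElem? X t i (by omega), seg_getElem? X s i hi]
  · rw [List.getElem?_eq_none (by rw [List.length_take, seg_length]; omega),
      List.getElem?_eq_none (by rw [seg_length]; omega)]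

theorem seg_prefix (X : ℕ → Bool) {s t : ℕ} (h : s ≤ t) : seg X s <+: seg X t := by
  rw [← seg_take X h]
  exact List.take_prefix _ _

theorem Pr_seg (X : ℕ → Bool) (t : ℕ) : Pr (seg X t) X := by
  unfold Pr
  rw [seg_length]

theorem Pr.get {x : Str} {X : ℕ → Bool} (h : Pr x X) {i : ℕ} (hi : i < x.length) :
    x.getD i false = X i := by
  rw [← h, seg_getD X _ i hi]

theorem Pr_iff {x : Str} {X : ℕ → Bool} : Pr x X ↔ ∀ i < x.length, x.getD i false = X i := by
  refine ⟨fun h i hi => h.get hi, fun h => ?_⟩
  unfold Pr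
  apply List.ext_getElem?
  intro i
  by_cases hi : i < x.length
  · rw [seg_getElem? X _ i hi, ← h i hi, List.getD_eq_getElem?_getD,
      List.getElem?_eq_getElem hi]
    rfl
  · rw [List.getElem?_eq_none (by rw [seg_length]; omega), List.getElem?_eq_none (by omega)]

theorem Pr.mono {x y : Str} {X : ℕ → Bool} (h : Pr y X) (hx : x <+: y) : Pr x X := by
  have h1 := hx.length_le
  obtain ⟨w, rfl⟩ := hx
  unfold Pr at *
  rw [← seg_take X h1, h, List.take_left']
  rfl

theorem Pr.prefix_of {x y : Str} {X : ℕ → Bool} (hx : Pr x X) (hy : Pr y X)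
    (h : x.length ≤ y.length) : x <+: y := by
  rw [← hx, ← hy]
  exact seg_prefix X h

theorem eq_of_Pr {X Y : ℕ → Bool} (h : ∀ i, ∃ x : Str, i < x.length ∧ Pr x X ∧ Pr x Y) : X = Y := by
  funext i
  obtain ⟨x, h1, h2, h3⟩ := h i
  rw [← h2.get h1, ← h3.get h1]

/-- A monotone map of strings with growing values. -/
structure Mo (S : Str → Str) : Prop where
  mono : ∀ x z : Str, S x <+: S (x ++ z)
  len : ∀ x : Str, x.length ≤ 2 * (S x).length + 2

theorem Mo.mono' {S : Str → Str} (h : Mo S) {x y : Str} (hxy : x <+: y) : S x <+: S y := by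
  obtain ⟨z, rfl⟩ := hxy
  exact h.mono x z

/-- the map of sequences given by a map of strings -/
def lim (S : Str → Str) (X : ℕ → Bool) : ℕ → Bool := fun i => (S (seg X (2 * i + 4))).getD i false

theorem pre_getD {x y : Str} (h : x <+: y) {i : ℕ} (hi : i < x.length) :
    x.getD i false = y.getD i false := by
  obtain ⟨z, rfl⟩ := h
  rw [List.getD_append _ _ _ _ hi]

theorem Mo.Pr {S : Str → Str} (h : Mo S) {x : Str} {X : ℕ → Bool} (hx : Pr x X) :
    Pr (S x) (lim S X) := by
  rw [Pr_iff]
  intro i hi
  unfold lim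
  rcases le_total x.length (2 * i + 4) with h1 | h1
  · refine pre_getD (h.mono' (hx.prefix_of (Pr_seg X _) ?_)) hi
    rw [seg_length]
    exact h1
  · refine (pre_getD (h.mono' ((Pr_seg X _).prefix_of hx ?_)) ?_).symm
    · rw [seg_length]
      exact h1
    · have := h.len (seg X (2 * i + 4))
      rw [seg_length] at this
      omega

theorem Mo.grow {S : Str → Str} (h : Mo S) (X : ℕ → Bool) (i : ℕ) :
    i < (S (seg X (2 * i + 4))).length := by
  have := h.len (seg X (2 * i + 4))
  rw [seg_length] at this
  omega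

theorem Mo.lim_eq {S : Str → Str} (h : Mo S) {X Y : ℕ → Bool}
    (hY : ∀ t, ∃ s ≥ t, FS.Pr (S (seg X s)) Y) : lim S X = Y := by
  refine eq_of_Pr fun i => ?_
  obtain ⟨s, hs, h1⟩ := hY (2 * i + 4)
  refine ⟨S (seg X s), ?_, h.Pr (Pr_seg X s), h1⟩
  have := h.len (seg X s)
  rw [seg_length] at this
  omega

/-- the number of zeros at the beginning -/
def lz (x : Str) : ℕ := x.findIdx (fun b => b)

/-- a map with labels: `0ᵏ 1 x ↦ 0ᵏ 1 T k x` -/
def lab (T : ℕ → Str → Str) (x : Str) : Str :=
  x.take (lz x + 1) ++ T (lz x) (x.drop (lz x + 1))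

theorem lz_long (k : ℕ) (x : Str) : lz (List.replicate k false ++ true :: x) = k := by
  unfold lz
  induction k with
  | zero => simp [List.findIdx_cons]
  | succ k ih =>
    rw [List.replicate_succ, List.cons_append, List.findIdx_cons]
    simp [ih]

theorem lz_zeros (k : ℕ) : lz (List.replicate k false) = k := by
  unfold lz
  induction k with
  | zero => rfl
  | succ k ih =>
    rw [List.replicate_succ, List.findIdx_cons]
    simp [ih]

theorem cases_str (x : Str) : (∃ k, x = List.replicate k false) ∨
    ∃ (k : ℕ) (y : Str), x = List.replicate k false ++ true :: y := by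
  induction x with
  | nil => exact Or.inl ⟨0, rfl⟩
  | cons b x ih =>
    cases b with
    | true => exact Or.inr ⟨0, x, rfl⟩
    | false =>
      rcases ih with ⟨k, hk⟩ | ⟨k, y, hk⟩
      · exact Or.inl ⟨k + 1, by rw [hk]; rfl⟩
      · exact Or.inr ⟨k + 1, y, by rw [hk]; rfl⟩

theorem lab_zeros {T : ℕ → Str → Str} (hT : ∀ k, T k [] = []) (k : ℕ) :
    lab T (List.replicate k false) = List.replicate k false := by
  unfold lab
  rw [lz_zeros, List.drop_eq_nil_of_le (by simp), hT, List.append_nil,
    List.take_of_length_le (by simp)]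

theorem lab_long (T : ℕ → Str → Str) (k : ℕ) (x : Str) :
    lab T (List.replicate k false ++ true :: x) = List.replicate k false ++ true :: T k x := by
  unfold lab
  rw [lz_long]
  have h1 : (List.replicate k false ++ true :: x) = (List.replicate k false ++ [true]) ++ x := by
    simp
  rw [h1, List.take_left' (by simp), List.drop_left' (by simp)]
  simp

theorem lab_mo {T : ℕ → Str → Str} (hT : ∀ k, T k [] = [])
    (hm : ∀ k x z, T k x <+: T k (x ++ z)) (hl : ∀ k x, x.length ≤ 2 * (T k x).length + 1) :
    Mo (lab T) := by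
  constructor
  · intro x z
    rcases cases_str x with ⟨k, rfl⟩ | ⟨k, y, rfl⟩
    · rw [lab_zeros hT]
      rcases cases_str z with ⟨l, rfl⟩ | ⟨l, y, rfl⟩
      · rw [List.replicate_append_replicate, lab_zeros hT, ← List.replicate_append_replicate]
        exact List.prefix_append _ _
      · rw [← List.append_assoc, List.replicate_append_replicate, lab_long,
          ← List.replicate_append_replicate, List.append_assoc]
        exact List.prefix_append _ _
    · rw [List.append_assoc, List.cons_append, lab_long, lab_long]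
      obtain ⟨w, hw⟩ := hm k y z
      exact ⟨w, by rw [← hw]; simp⟩
  · intro x
    rcases cases_str x with ⟨k, rfl⟩ | ⟨k, y, rfl⟩
    · rw [lab_zeros hT]
      simp
      omega
    · rw [lab_long]
      have := hl k y
      simp only [List.length_append, List.length_replicate, List.length_cons]
      omega

/-- the maps of the letters `0`, `1`, `2`, `3` -/
def S (l : ℕ) (x : Str) : Str :=
  if l = 0 then false :: x
  else if l = 1 then x.tail
  else if l = 2 then lab (fun k => run k []) x
  else lab (fun k => frun k []) x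

theorem S0 (x : Str) : S 0 x = false :: x := rfl
theorem S1 (x : Str) : S 1 x = x.tail := rfl
theorem S2 (x : Str) : S 2 x = lab (fun k => run k []) x := rfl
theorem S3 (x : Str) : S 3 x = lab (fun k => frun k []) x := rfl

theorem S_mo (l : ℕ) : Mo (S l) := by
  by_cases h0 : l = 0
  · subst h0
    constructor
    · intro x z
      exact ⟨z, rfl⟩
    · intro x
      rw [S0, List.length_cons]
      omega
  · by_cases h1 : l = 1
    · subst h1
      constructor
      · intro x z
        rw [S1, S1]
        cases x with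
        | nil => exact List.nil_prefix
        | cons b x => exact ⟨z, rfl⟩
      · intro x
        rw [S1, List.length_tail]
        omega
    · by_cases h2 : l = 2
      · subst h2
        refine lab_mo (T := fun k => run k []) (fun _ => rfl) (fun k x z => run_mono k z x [])
          fun k x => ?_
        have := run_len k x []
        omega
      · have h3 : S l = lab (fun k => frun k []) := by
          funext x
          unfold S
          rw [if_neg h0, if_neg h1, if_neg h2]
        rw [h3]
        exact lab_mo (T := fun k => frun k []) (fun _ => rfl) (fun k x z => frun_mono k z x [])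
          fun k x => frun_len k x []

/-- the maps of the letters on sequences -/
def L (l : ℕ) (X : ℕ → Bool) : ℕ → Bool := lim (S l) X

/-- the digit `b` in front of `X` -/
def cns (b : Bool) (X : ℕ → Bool) : ℕ → Bool := fun n => if n = 0 then b else X (n - 1)

theorem seg_cns (b : Bool) (X : ℕ → Bool) (s : ℕ) : seg (cns b X) (s + 1) = b :: seg X s := by
  unfold seg
  rw [List.range_succ_eq_map, List.map_cons, List.map_map]
  rfl

theorem Pr_cns {x : Str} {X : ℕ → Bool} (b : Bool) : Pr (b :: x) (cns b X) ↔ Pr x X := by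
  unfold Pr
  rw [List.length_cons, seg_cns]
  simp

/-- `0ᵏ 1 X` -/
def zs (k : ℕ) (X : ℕ → Bool) : ℕ → Bool := (cns false)^[k] (cns true X)

theorem zs_succ (k : ℕ) (X : ℕ → Bool) : zs (k + 1) X = cns false (zs k X) :=
  Function.iterate_succ_apply' _ _ _

theorem Pr_zs (k : ℕ) {x : Str} {X : ℕ → Bool} :
    Pr (List.replicate k false ++ true :: x) (zs k X) ↔ Pr x X := by
  induction k with
  | zero => exact Pr_cns true
  | succ k ih =>
    rw [List.replicate_succ, List.cons_append, zs_succ, Pr_cns, ih]

theorem L0 (X : ℕ → Bool) : L 0 X = cns false X := by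
  refine (S_mo 0).lim_eq fun t => ⟨t, le_refl t, ?_⟩
  rw [S0, Pr_cns]
  exact Pr_seg X t

theorem L1_cns (b : Bool) (X : ℕ → Bool) : L 1 (cns b X) = X := by
  refine (S_mo 1).lim_eq fun t => ⟨t + 1, Nat.le_succ t, ?_⟩
  rw [S1, seg_cns]
  exact Pr_seg X t

theorem seg_zs (k s : ℕ) (X : ℕ → Bool) :
    seg (zs k X) (k + 1 + s) = List.replicate k false ++ true :: seg X s := by
  have h := (Pr_zs k (x := seg X s) (X := X)).2 (Pr_seg X s)
  unfold Pr at h
  rw [← h]
  congr 1
  simp [seg_length]
  omega

theorem L_zs {T : ℕ → Str → Str} {l : ℕ} (hl : S l = lab T) (k : ℕ) (X : ℕ → Bool)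
    (hT : Mo (T k)) : L l (zs k X) = zs k (lim (T k) X) := by
  refine (S_mo l).lim_eq fun t => ⟨k + 1 + t, by omega, ?_⟩
  rw [hl, seg_zs, lab_long, Pr_zs]
  exact hT.Pr (Pr_seg X t)

theorem run_mo (k : ℕ) : Mo (run k []) :=
  ⟨fun x z => run_mono k z x [], fun x => by have := run_len k x []; omega⟩

theorem frun_mo (k : ℕ) : Mo (frun k []) :=
  ⟨fun x z => frun_mono k z x [], fun x => by have := frun_len k x []; omega⟩

/-- the map `G` -/
def GG (k : ℕ) (X : ℕ → Bool) : ℕ → Bool := lim (run k []) X

/-- the map `F` -/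
def FF (k : ℕ) (X : ℕ → Bool) : ℕ → Bool := lim (frun k []) X

theorem L2_zs (k : ℕ) (X : ℕ → Bool) : L 2 (zs k X) = zs k (GG k X) :=
  L_zs (T := fun k => run k []) (funext S2) k X (run_mo k)

theorem L3_zs (k : ℕ) (X : ℕ → Bool) : L 3 (zs k X) = zs k (FF k X) :=
  L_zs (T := fun k => frun k []) (funext S3) k X (frun_mo k)

/-- The map `F k` is a left inverse of `G k`. -/
theorem FF_GG (k : ℕ) (X : ℕ → Bool) : FF k (GG k X) = X := by
  refine eq_of_Pr fun i => ⟨seg X (i + 1), by rw [seg_length]; omega, ?_, Pr_seg X _⟩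
  have h := (frun_mo k).Pr ((run_mo k).Pr (Pr_seg X (i + 1)))
  rw [frun_run] at h
  exact h

end Pool.Agent.Q206.FS
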