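import Pool.Agent.Q206.FS.Str

/-!
The maps of strings are primitive recursive.
-/

set_option autoImplicit false

namespace Pool.Agent.Q206.FS

open Nat.Partrec (Code)
open Encodable
open Pool.Agent.H639.LU
open Pool.Agent.Helper446.Defs

/-- `go` by recursion on the length of the rest -/
def goR (k : ℕ) (τ : Str) (m : ℕ) : Str :=
  Nat.rec [] (fun m r =>
    if E k (τ.take (τ.length - (m + 1))) = true then false :: τ.drop (τ.length - (m + 1))
    else true :: τ.getD (τ.length - (m + 1)) false :: r) m

/-- `run` by recursion on the length of the rest -/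
def runR (k : ℕ) (τ : Str) (m : ℕ) : Str :=
  Nat.rec [] (fun m r =>
    if D k (τ.take (τ.length - (m + 1))) = true then goR k τ (m + 1)
    else τ.getD (τ.length - (m + 1)) false :: r) m

/-- `frun` by recursion on the length of the rest -/
def frunR (k : ℕ) (τ : Str) (m : ℕ) : Str :=
  Nat.rec [] (fun m r =>
    if D k (τ.take (τ.length - (m + 1))) = true then und (τ.drop (τ.length - (m + 1)))
    else τ.getD (τ.length - (m + 1)) false :: r) m

theorem idx (base : Str) (b : Bool) (y : Str) :
    (base ++ b :: y).length - (y.length + 1) = base.length := by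
  rw [List.length_append, List.length_cons]
  omega

theorem getD_mid (base : Str) (b : Bool) (y : Str) :
    (base ++ b :: y).getD base.length false = b := by
  simp

theorem goR_eq (k : ℕ) : ∀ y base : Str, goR k (base ++ y) y.length = go k base y
  | [], _ => rfl
  | b :: y, base => by
    have h := goR_eq k y (base ++ [b])
    rw [List.append_assoc, List.singleton_append] at h
    simp only [go]
    rw [← h]
    unfold goR
    simp only [List.length_cons, idx, List.take_left', List.drop_left', getD_mid]

theorem runR_eq (k : ℕ) : ∀ y base : Str, runR k (base ++ y) y.length = run k base y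
  | [], _ => rfl
  | b :: y, base => by
    have h := runR_eq k y (base ++ [b])
    rw [List.append_assoc, List.singleton_append] at h
    have h2 := goR_eq k (b :: y) base
    simp only [run]
    rw [← h, ← h2]
    unfold runR
    simp only [List.length_cons, idx, List.take_left', getD_mid]

theorem frunR_eq (k : ℕ) : ∀ y base : Str, frunR k (base ++ y) y.length = frun k base y
  | [], _ => rfl
  | b :: y, base => by
    have h := frunR_eq k y (base ++ [b])
    rw [List.append_assoc, List.singleton_append] at h
    simp only [frun]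
    rw [← h]
    unfold frunR
    simp only [List.length_cons, idx, List.take_left', List.drop_left', getD_mid]

/-- the decoding machine -/
def ustep (s : ℕ × Str) (b : Bool) : ℕ × Str :=
  if s.1 = 0 then (if b = true then (1, s.2) else (2, s.2))
  else if s.1 = 1 then (0, s.2 ++ [b]) else (2, s.2 ++ [b])

theorem ustep2 : ∀ (y o : Str), y.foldl ustep (2, o) = (2, o ++ y)
  | [], o => by simp
  | b :: y, o => by
    rw [List.foldl_cons]
    change y.foldl ustep (2, o ++ [b]) = _
    rw [ustep2 y (o ++ [b])]
    simp

theorem ustep0 : ∀ (y o : Str), (y.foldl ustep (0, o)).2 = o ++ und y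
  | [], o => by simp [und]
  | [true], o => by simp [und, ustep]
  | true :: x :: r, o => by
    rw [List.foldl_cons, List.foldl_cons]
    change (r.foldl ustep (0, o ++ [x])).2 = _
    rw [ustep0 r (o ++ [x])]
    simp [und]
  | false :: r, o => by
    rw [List.foldl_cons]
    change (r.foldl ustep (2, o)).2 = _
    rw [ustep2 r o]
    simp [und]

theorem ustep_prim : Primrec₂ ustep := by
  unfold ustep
  refine Primrec.ite (Primrec.eq.comp (Primrec.fst.comp Primrec.fst) (Primrec.const 0)) ?_ ?_
  · refine Primrec.ite (Primrec.eq.comp Primrec.snd (Primrec.const true)) ?_ ?_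
    · exact (Primrec.const 1).pair (Primrec.snd.comp Primrec.fst)
    · exact (Primrec.const 2).pair (Primrec.snd.comp Primrec.fst)
  · refine Primrec.ite (Primrec.eq.comp (Primrec.fst.comp Primrec.fst) (Primrec.const 1)) ?_ ?_
    · exact (Primrec.const 0).pair (Primrec.list_append.comp (Primrec.snd.comp Primrec.fst)
        (Primrec.list_cons.comp Primrec.snd (Primrec.const [])))
    · exact (Primrec.const 2).pair (Primrec.list_append.comp (Primrec.snd.comp Primrec.fst)
        (Primrec.list_cons.comp Primrec.snd (Primrec.const [])))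

theorem und_prim : Primrec und := by
  have h : Primrec fun y : Str => (y.foldl ustep (0, [])).2 := by
    refine Primrec.snd.comp ?_
    refine Primrec.list_foldl (f := fun x : Str => x) (g := fun _ => ((0, []) : ℕ × Str))
      (h := fun _ p => ustep p.1 p.2) Primrec.id (Primrec.const _) ?_
    exact ustep_prim.comp (Primrec.fst.comp Primrec.snd) (Primrec.snd.comp Primrec.snd)
  refine h.of_eq fun y => ?_
  rw [ustep0 y []]
  simp

theorem drop_prim : Primrec₂ (fun (n : ℕ) (l : Str) => l.drop n) :=
  Primrec.list_drop

theorem goR_prim : Primrec (fun a : (ℕ × Str) × ℕ => goR a.1.1 a.1.2 a.2) := by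
  have hi : Primrec (fun a : ((ℕ × Str) × ℕ) × (ℕ × Str) => a.1.1.2.length - (a.2.1 + 1)) :=
    Primrec.nat_sub.comp (Primrec.list_length.comp
      (Primrec.snd.comp (Primrec.fst.comp Primrec.fst)))
      (Primrec.succ.comp (Primrec.fst.comp Primrec.snd))
  have hτ : Primrec (fun a : ((ℕ × Str) × ℕ) × (ℕ × Str) => a.1.1.2) :=
    Primrec.snd.comp (Primrec.fst.comp Primrec.fst)
  refine Primrec.nat_rec' (f := fun a : (ℕ × Str) × ℕ => a.2) (g := fun _ => ([] : Str))
    (h := fun a p => if E a.1.1 (a.1.2.take (a.1.2.length - (p.1 + 1))) = true then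
      false :: a.1.2.drop (a.1.2.length - (p.1 + 1))
      else true :: a.1.2.getD (a.1.2.length - (p.1 + 1)) false :: p.2)
    Primrec.snd (Primrec.const _) ?_
  refine Primrec.ite (Primrec.eq.comp (E_prim.comp (Primrec.fst.comp
    (Primrec.fst.comp Primrec.fst)) (Primrec.list_take.comp hi hτ)) (Primrec.const true)) ?_ ?_
  · exact Primrec.list_cons.comp (Primrec.const false) (drop_prim.comp hi hτ)
  · exact Primrec.list_cons.comp (Primrec.const true) (Primrec.list_cons.comp
      ((Primrec.list_getD false).comp hτ hi) (Primrec.snd.comp Primrec.snd))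

theorem runR_prim : Primrec (fun a : (ℕ × Str) × ℕ => runR a.1.1 a.1.2 a.2) := by
  have hi : Primrec (fun a : ((ℕ × Str) × ℕ) × (ℕ × Str) => a.1.1.2.length - (a.2.1 + 1)) :=
    Primrec.nat_sub.comp (Primrec.list_length.comp
      (Primrec.snd.comp (Primrec.fst.comp Primrec.fst)))
      (Primrec.succ.comp (Primrec.fst.comp Primrec.snd))
  have hτ : Primrec (fun a : ((ℕ × Str) × ℕ) × (ℕ × Str) => a.1.1.2) :=
    Primrec.snd.comp (Primrec.fst.comp Primrec.fst)
  refine Primrec.nat_rec' (f := fun a : (ℕ × Str) × ℕ => a.2) (g := fun _ => ([] : Str))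
    (h := fun a p => if D a.1.1 (a.1.2.take (a.1.2.length - (p.1 + 1))) = true then
      goR a.1.1 a.1.2 (p.1 + 1)
      else a.1.2.getD (a.1.2.length - (p.1 + 1)) false :: p.2)
    Primrec.snd (Primrec.const _) ?_
  refine Primrec.ite (Primrec.eq.comp (D_prim.comp (Primrec.fst.comp
    (Primrec.fst.comp Primrec.fst)) (Primrec.list_take.comp hi hτ)) (Primrec.const true)) ?_ ?_
  · exact goR_prim.comp ((Primrec.fst.comp Primrec.fst).pair
      (Primrec.succ.comp (Primrec.fst.comp Primrec.snd)))
  · exact Primrec.list_cons.comp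
      ((Primrec.list_getD false).comp hτ hi) (Primrec.snd.comp Primrec.snd)

theorem frunR_prim : Primrec (fun a : (ℕ × Str) × ℕ => frunR a.1.1 a.1.2 a.2) := by
  have hi : Primrec (fun a : ((ℕ × Str) × ℕ) × (ℕ × Str) => a.1.1.2.length - (a.2.1 + 1)) :=
    Primrec.nat_sub.comp (Primrec.list_length.comp
      (Primrec.snd.comp (Primrec.fst.comp Primrec.fst)))
      (Primrec.succ.comp (Primrec.fst.comp Primrec.snd))
  have hτ : Primrec (fun a : ((ℕ × Str) × ℕ) × (ℕ × Str) => a.1.1.2) :=
    Primrec.snd.comp (Primrec.fst.comp Primrec.fst)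
  refine Primrec.nat_rec' (f := fun a : (ℕ × Str) × ℕ => a.2) (g := fun _ => ([] : Str))
    (h := fun a p => if D a.1.1 (a.1.2.take (a.1.2.length - (p.1 + 1))) = true then
      und (a.1.2.drop (a.1.2.length - (p.1 + 1)))
      else a.1.2.getD (a.1.2.length - (p.1 + 1)) false :: p.2)
    Primrec.snd (Primrec.const _) ?_
  refine Primrec.ite (Primrec.eq.comp (D_prim.comp (Primrec.fst.comp
    (Primrec.fst.comp Primrec.fst)) (Primrec.list_take.comp hi hτ)) (Primrec.const true)) ?_ ?_
  · exact und_prim.comp (drop_prim.comp hi hτ)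
  · exact Primrec.list_cons.comp
      ((Primrec.list_getD false).comp hτ hi) (Primrec.snd.comp Primrec.snd)

theorem run_prim : Primrec (fun a : ℕ × Str => run a.1 [] a.2) :=
  (runR_prim.comp (Primrec.id.pair (Primrec.list_length.comp Primrec.snd))).of_eq fun a =>
    runR_eq a.1 a.2 []

theorem frun_prim : Primrec (fun a : ℕ × Str => frun a.1 [] a.2) :=
  (frunR_prim.comp (Primrec.id.pair (Primrec.list_length.comp Primrec.snd))).of_eq fun a =>
    frunR_eq a.1 a.2 []

end Pool.Agent.Q206.FS
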