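import Pool.Agent.H639.LU.K7
import Pool.Agent.H639.LU.K2
import Pool.Agent.H639.LU.K3
import Pool.Agent.H639.LU.K4
import Pool.Agent.H639.LU.K5
import Pool.Agent.H639.LU.C1
import Pool.Agent.H639.LU.N1
import Pool.Agent.H639.LU.N2

/-!
Maps of finite strings: the two basic maps with labels, on strings.
-/

set_option autoImplicit false

namespace Pool.Agent.Q206.FS

open Nat.Partrec (Code)
open Encodable
open Pool.Agent.H639.LU
open Pool.Agent.Helper446.Defs

/-- the program with number `p` is seen by the string `x` to halt on the input `q` -/
def ev (p q : ℕ) (x : Str) : Bool := hst (Denumerable.ofNat Code p) x q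

theorem ev_mono {p q : ℕ} {x y : Str} (h : x <+: y) (hx : ev p q x = true) : ev p q y = true :=
  (N2 N1).2.1 _ _ _ _ h hx

theorem W_iff_ev (p q : ℕ) (X : ℕ → Bool) :
    W (Denumerable.ofNat Code p) X q ↔ ∃ t, ev p q (seg X t) = true :=
  (N2 N1).1 _ _ _

theorem ev_prim : Primrec (fun a : (ℕ × ℕ) × Str => ev a.1.1 a.1.2 a.2) :=
  C1_hst.comp (((Primrec.ofNat Code).comp (Primrec.fst.comp Primrec.fst)).pair
    (Primrec.snd.pair (Primrec.snd.comp Primrec.fst)))

/-- the parser: phase, number of complete blocks, are we at the start of a block -/
def pstep (s : ℕ × ℕ × Bool) (b : Bool) : ℕ × ℕ × Bool :=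
  if s.1 = 0 then (if b = true then (1, s.2.1, false) else (2, s.2.1, false))
  else if s.1 = 1 then (0, s.2.1, false) else (0, s.2.1 + 1, true)

/-- the state of the parser after reading `x` -/
def P (x : Str) : ℕ × ℕ × Bool := x.foldl pstep (0, 0, true)

theorem pstep_prim : Primrec₂ pstep := by
  unfold pstep
  refine Primrec.ite (Primrec.eq.comp (Primrec.fst.comp Primrec.fst) (Primrec.const 0)) ?_ ?_
  · refine Primrec.ite (Primrec.eq.comp Primrec.snd (Primrec.const true)) ?_ ?_
    · exact (Primrec.const 1).pair ((Primrec.fst.comp (Primrec.snd.comp Primrec.fst)).pair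
        (Primrec.const false))
    · exact (Primrec.const 2).pair ((Primrec.fst.comp (Primrec.snd.comp Primrec.fst)).pair
        (Primrec.const false))
  · refine Primrec.ite (Primrec.eq.comp (Primrec.fst.comp Primrec.fst) (Primrec.const 1)) ?_ ?_
    · exact (Primrec.const 0).pair ((Primrec.fst.comp (Primrec.snd.comp Primrec.fst)).pair
        (Primrec.const false))
    · exact (Primrec.const 0).pair ((Primrec.succ.comp
        (Primrec.fst.comp (Primrec.snd.comp Primrec.fst))).pair (Primrec.const true))

theorem P_prim : Primrec P := by
  refine Primrec.list_foldl (f := fun x : Str => x) (g := fun _ => ((0, 0, true) : ℕ × ℕ × Bool))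
    (h := fun _ p => pstep p.1 p.2) Primrec.id (Primrec.const _) ?_
  exact pstep_prim.comp (Primrec.fst.comp Primrec.snd) (Primrec.snd.comp Primrec.snd)

/-- the trigger of the label `k` -/
def H (k : ℕ) (x : Str) : Bool := ev k.unpair.1.unpair.1 k.unpair.1.unpair.2 x

/-- the event of the label `k` -/
def E (k : ℕ) (x : Str) : Bool := ev k.unpair.2.unpair.1 k.unpair.2.unpair.2 x

/-- `x` is a place of departure for the label `k` -/
def D (k : ℕ) (x : Str) : Bool :=
  H k x && ((P x).2.2 && decide ((P x).2.1.unpair.1 = k.unpair.2.unpair.2))

theorem H_prim : Primrec₂ H := by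
  refine ev_prim.comp (((Primrec.fst.comp (Primrec.unpair.comp ?_)).pair
    (Primrec.snd.comp (Primrec.unpair.comp ?_))).pair Primrec.snd)
  · exact Primrec.fst.comp (Primrec.unpair.comp Primrec.fst)
  · exact Primrec.fst.comp (Primrec.unpair.comp Primrec.fst)

theorem E_prim : Primrec₂ E := by
  refine ev_prim.comp (((Primrec.fst.comp (Primrec.unpair.comp ?_)).pair
    (Primrec.snd.comp (Primrec.unpair.comp ?_))).pair Primrec.snd)
  · exact Primrec.snd.comp (Primrec.unpair.comp Primrec.fst)
  · exact Primrec.snd.comp (Primrec.unpair.comp Primrec.fst)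

theorem D_prim : Primrec₂ D := by
  unfold D
  refine Primrec.and.comp H_prim (Primrec.and.comp ?_ ?_)
  · exact Primrec.snd.comp (Primrec.snd.comp (P_prim.comp Primrec.snd))
  · refine Primrec.eq.decide.comp ?_ ?_
    · exact Primrec.fst.comp (Primrec.unpair.comp (Primrec.fst.comp (Primrec.snd.comp
        (P_prim.comp Primrec.snd))))
    · exact Primrec.snd.comp (Primrec.unpair.comp (Primrec.snd.comp
        (Primrec.unpair.comp Primrec.fst)))

/-- departure: digits are written with flags until the event happens -/
def go (k : ℕ) : Str → Str → Str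
  | _, [] => []
  | base, b :: y => if E k base = true then false :: b :: y else true :: b :: go k (base ++ [b]) y

/-- the map `G k` on strings -/
def run (k : ℕ) : Str → Str → Str
  | _, [] => []
  | base, b :: y => if D k base = true then go k base (b :: y) else b :: run k (base ++ [b]) y

/-- flagged digits are decoded -/
def und : Str → Str
  | [] => []
  | [true] => []
  | true :: x :: r => x :: und r
  | false :: r => r

/-- the map `F k` on strings -/
def frun (k : ℕ) : Str → Str → Str
  | _, [] => []
  | base, b :: y => if D k base = true then und (b :: y) else b :: frun k (base ++ [b]) y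

theorem und_go (k : ℕ) : ∀ (y base : Str), und (go k base y) = y
  | [], _ => rfl
  | b :: y, base => by
    unfold go
    split_ifs with h
    · rfl
    · change b :: und (go k (base ++ [b]) y) = b :: y
      rw [und_go k y]

theorem frun_run (k : ℕ) : ∀ (y base : Str), frun k base (run k base y) = y
  | [], _ => rfl
  | b :: y, base => by
    unfold run
    split_ifs with h
    · unfold go
      split_ifs with h2
      · simp only [frun, h, if_true, und]
      · simp only [frun, h, if_true, und, und_go]
    · simp only [frun, h, frun_run k y]
      rfl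

theorem go_mono (k : ℕ) (z : Str) : ∀ (y base : Str), go k base y <+: go k base (y ++ z)
  | [], _ => List.nil_prefix
  | b :: y, base => by
    simp only [go, List.cons_append]
    split_ifs with h
    · exact ⟨z, rfl⟩
    · obtain ⟨w, hw⟩ := go_mono k z y (base ++ [b])
      exact ⟨w, by simp [hw]⟩

theorem run_mono (k : ℕ) (z : Str) : ∀ (y base : Str), run k base y <+: run k base (y ++ z)
  | [], _ => List.nil_prefix
  | b :: y, base => by
    simp only [run, List.cons_append]
    split_ifs with h
    · exact go_mono k z (b :: y) base
    · obtain ⟨w, hw⟩ := run_mono k z y (base ++ [b])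
      exact ⟨w, by simp [hw]⟩

theorem und_mono (z : Str) : ∀ y : Str, und y <+: und (y ++ z)
  | [] => List.nil_prefix
  | [true] => List.nil_prefix
  | true :: x :: r => by
    obtain ⟨w, hw⟩ := und_mono z r
    exact ⟨w, by simp [und, hw]⟩
  | false :: r => ⟨z, rfl⟩

theorem frun_mono (k : ℕ) (z : Str) : ∀ (y base : Str), frun k base y <+: frun k base (y ++ z)
  | [], _ => List.nil_prefix
  | b :: y, base => by
    simp only [frun, List.cons_append]
    split_ifs with h
    · exact und_mono z (b :: y)
    · obtain ⟨w, hw⟩ := frun_mono k z y (base ++ [b])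
      exact ⟨w, by simp [hw]⟩

theorem go_len (k : ℕ) : ∀ (y base : Str), y.length ≤ (go k base y).length
  | [], _ => Nat.zero_le _
  | b :: y, base => by
    have := go_len k y (base ++ [b])
    simp only [go]
    split_ifs with h
    · simp
    · simp only [List.length_cons]
      omega

theorem run_len (k : ℕ) : ∀ (y base : Str), y.length ≤ (run k base y).length
  | [], _ => Nat.zero_le _
  | b :: y, base => by
    have := run_len k y (base ++ [b])
    simp only [run]
    split_ifs with h
    · exact go_len k (b :: y) base
    · simp only [List.length_cons]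
      omega

theorem und_len : ∀ y : Str, y.length ≤ 2 * (und y).length + 1
  | [] => Nat.zero_le _
  | [true] => by simp
  | true :: x :: r => by
    have := und_len r
    simp only [und, List.length_cons]
    omega
  | false :: r => by
    simp only [und, List.length_cons]
    omega

theorem frun_len (k : ℕ) : ∀ (y base : Str), y.length ≤ 2 * (frun k base y).length + 1
  | [], _ => Nat.zero_le _
  | b :: y, base => by
    have := frun_len k y (base ++ [b])
    simp only [frun]
    split_ifs with h
    · exact und_len (b :: y)
    · simp only [List.length_cons]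
      omega

end Pool.Agent.Q206.FS
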